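import Pool.Agent.Lib.MP_b54217_ag.Alg

set_option autoImplicit false

namespace Pool.Agent.SV

open MvPolynomial

/-- The coordinate ring of the closure of the image of the polynomial map `f`. -/
theorem krull_image {K ι σ : Type} [Field K] [Infinite K] (f : ι → MvPolynomial σ K)
    (Z : Set (ι → K)) (hZ : Z = Set.range fun (t : σ → K) i => eval t (f i)) :
    ringKrullDim (MvPolynomial ι K ⧸ vanishingIdeal K Z) =
      ringKrullDim (Algebra.adjoin K (Set.range f)) := by
  have hI : vanishingIdeal K Z = RingHom.ker (aeval (R := K) f) := by
    ext P
    rw [mem_vanishingIdeal_iff, hZ, RingHom.mem_ker]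
    constructor
    · intro h
      apply MvPolynomial.funext
      intro t
      rw [map_zero]
      have h1 := h _ ⟨t, rfl⟩
      rw [← h1]
      have h2 : (eval t) ((aeval f) P) = aeval (fun i => eval t (f i)) P := by
        rw [aeval_def, aeval_def, ← MvPolynomial.coe_eval₂Hom, ← MvPolynomial.coe_eval₂Hom]
        change ((eval t).comp (eval₂Hom (algebraMap K (MvPolynomial σ K)) f)) P = _
        congr 1
        apply MvPolynomial.ringHom_ext
        · intro r
          simp
        · intro i
          simp
      exact h2
    · rintro h _ ⟨t, rfl⟩
      have h2 : (eval t) ((aeval f) P) = aeval (fun i => eval t (f i)) P := by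
        rw [aeval_def, aeval_def, ← MvPolynomial.coe_eval₂Hom, ← MvPolynomial.coe_eval₂Hom]
        change ((eval t).comp (eval₂Hom (algebraMap K (MvPolynomial σ K)) f)) P = _
        congr 1
        apply MvPolynomial.ringHom_ext
        · intro r
          simp
        · intro i
          simp
      rw [← h2]
      have h3 : (aeval f) P = 0 := h
      rw [h3, map_zero]
  rw [hI, Algebra.adjoin_range_eq_range_aeval]
  exact ringKrullDim_eq_of_ringEquiv (RingHom.quotientKerEquivRange (aeval (R := K) f).toRingHom)

/-- Upper bound for the dimension by the number of generators of a field containing the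
coordinates. -/
theorem krull_le {K ι σ κ L : Type} [Field K] [Finite ι] [Fintype κ] [Field L]
    [Algebra K L] (f : ι → MvPolynomial σ K) (φ : MvPolynomial σ K →ₐ[K] L)
    (hφ : Function.Injective φ) (g : κ → L)
    (h : ∀ i, φ (f i) ∈ IntermediateField.adjoin K (Set.range g)) :
    ringKrullDim (Algebra.adjoin K (Set.range f)) ≤ (Fintype.card κ : ℕ) := by
  haveI : Algebra.FiniteType K (Algebra.adjoin K (Set.range f)) := by
    rw [← Subalgebra.fg_iff_finiteType]
    exact Subalgebra.fg_def.2 ⟨_, Set.finite_range f, rfl⟩
  obtain ⟨s, h1, h2⟩ := krull_trdeg K (Algebra.adjoin K (Set.range f))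
  rw [h1]
  have h3 : (s : Cardinal) ≤ (Fintype.card κ : ℕ) := by
    rw [← h2]
    let E := IntermediateField.adjoin K (Set.range g)
    have hmem : ∀ a ∈ Algebra.adjoin K (Set.range f), φ a ∈ E := by
      intro a ha
      have : Algebra.adjoin K (Set.range f) ≤ Subalgebra.comap φ E.toSubalgebra := by
        rw [Algebra.adjoin_le_iff]
        rintro _ ⟨i, rfl⟩
        exact h i
      exact this ha
    let ψ : Algebra.adjoin K (Set.range f) →ₐ[K] E :=
      (φ.comp (Algebra.adjoin K (Set.range f)).val).codRestrict E.toSubalgebra
        (fun a => hmem a.1 a.2)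
    have hψ : Function.Injective ψ := by
      intro a b hab
      apply Subtype.ext
      apply hφ
      exact congrArg Subtype.val hab
    refine (trdeg_le_of_injective ψ hψ).trans ?_
    have hs : ∀ k, g k ∈ E := fun k => IntermediateField.subset_adjoin K _ ⟨k, rfl⟩
    let g' : κ → E := fun k => ⟨g k, hs k⟩
    haveI : Algebra.IsAlgebraic (Algebra.adjoin K (Set.range g')) E := by
      refine ⟨fun x => ?_⟩
      obtain ⟨a, b, hx⟩ := (IntermediateField.mem_adjoin_range_iff K g x.1).1 x.2
      set A : Algebra.adjoin K (Set.range g') := ⟨aeval g' a, by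
        rw [Algebra.adjoin_range_eq_range_aeval]; exact ⟨a, rfl⟩⟩ with hA
      set B : Algebra.adjoin K (Set.range g') := ⟨aeval g' b, by
        rw [Algebra.adjoin_range_eq_range_aeval]; exact ⟨b, rfl⟩⟩ with hB
      have hAv : ((A : E) : L) = aeval g a := by
        rw [hA]
        exact MvPolynomial.comp_aeval_apply g' E.val a
      have hBv : ((B : E) : L) = aeval g b := by
        rw [hB]
        exact MvPolynomial.comp_aeval_apply g' E.val b
      by_cases hb : B = 0
      · have : x = 0 := by
          apply Subtype.ext
          rw [hx, ← hBv, hb]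
          simp
        rw [this]
        exact isAlgebraic_zero
      · refine ⟨Polynomial.C B * Polynomial.X - Polynomial.C A, ?_, ?_⟩
        · intro h0
          have := congrArg (fun p => Polynomial.coeff p 1) h0
          simp at this
          exact hb this
        · have hb' : ((B : E) : L) ≠ 0 := by
            intro h0
            apply hb
            apply Subtype.ext
            apply Subtype.ext
            exact h0
          rw [map_sub, map_mul, Polynomial.aeval_C, Polynomial.aeval_C, Polynomial.aeval_X]
          apply Subtype.ext
          change ((B : E) : L) * x.1 - ((A : E) : L) = 0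
          rw [hx, ← hAv, ← hBv]
          field_simp
          ring
    refine (Algebra.IsAlgebraic.trdeg_le_cardinalMk (R := K) (A := E) (Set.range g')).trans ?_
    exact Cardinal.mk_range_le.trans (by simp)
  have h4 : s ≤ Fintype.card κ := by exact_mod_cast h3
  exact_mod_cast h4

end Pool.Agent.SV
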