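import Pool.Agent.Lib.MP_b54217_ag.Jac
import Pool.Agent.Lib.MP_b54217_ag.AlgB

set_option autoImplicit false

namespace Pool.Agent.SV

open MvPolynomial

/-- Lower bound for the dimension of the closure of the image by the rank of the differential at
one point. -/
theorem krull_ge {K ι σ : Type} [Field K] [CharZero K] [Fintype ι] [Fintype σ]
    (f : ι → MvPolynomial σ K) (t : σ → K) (R : ℕ)
    (h : R ≤ Module.finrank K (Submodule.span K
      (Set.range fun (s : σ) => (fun i => eval t (pderiv s (f i)) : ι → K)))) :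
    (R : WithBot ℕ∞) ≤ ringKrullDim (Algebra.adjoin K (Set.range f)) := by
  classical
  have : Algebra.FiniteType K (Algebra.adjoin K (Set.range f)) := by
    rw [← Subalgebra.fg_iff_finiteType]
    exact Subalgebra.fg_def.2 ⟨_, Set.finite_range f, rfl⟩
  obtain ⟨s, h1, h2⟩ := krull_trdeg K (Algebra.adjoin K (Set.range f))
  let B : Matrix ι σ K := fun i s => eval t (pderiv s (f i))
  have hB1 : R ≤ B.rank := by
    rw [Matrix.rank_eq_finrank_span_cols]
    exact h
  rw [Matrix.rank_eq_finrank_span_row] at hB1
  obtain ⟨v, hv1, -, hv3⟩ := Submodule.exists_fun_fin_finrank_span_eq K (Set.range B.row)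
  choose b hb using hv1
  have h3 : LinearIndependent K (fun j : Fin R =>
      (fun s => eval t (pderiv s (f (b (Fin.castLE hB1 j)))) : σ → K)) := by
    have h4 := hv3.comp (Fin.castLE hB1) (Fin.castLE_injective hB1)
    have h5 : (v ∘ Fin.castLE hB1) = (fun j : Fin R =>
      (fun s => eval t (pderiv s (f (b (Fin.castLE hB1 j)))) : σ → K)) := by
      funext j
      exact (hb (Fin.castLE hB1 j)).symm
    rwa [h5] at h4
  have h6 := jac_lower (fun j : Fin R => f (b (Fin.castLE hB1 j))) t h3
  have h7 : AlgebraicIndependent K (fun j : Fin R =>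
      (⟨f (b (Fin.castLE hB1 j)), Algebra.subset_adjoin ⟨_, rfl⟩⟩ :
        Algebra.adjoin K (Set.range f))) := by
    rw [← AlgHom.algebraicIndependent_iff (Algebra.adjoin K (Set.range f)).val
      Subtype.val_injective]
    exact h6
  have h8 := h7.cardinalMk_le_trdeg
  rw [h2, Cardinal.mk_fin] at h8
  rw [h1]
  have h9 : R ≤ s := by exact_mod_cast h8
  exact_mod_cast h9

end Pool.Agent.SV
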