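import Pool.Agent.Lib.MP_b54217_ag.Upp

/-!
# Arithmetic
-/

set_option autoImplicit false

namespace Pool.Agent.SV

theorem sum_lt (a u : ℕ) (h : u ≤ a) : ∑ i : Fin a, (if (i : ℕ) < u then 1 else 0) = u := by
  rw [Fin.sum_univ_eq_sum_range (fun i => if i < u then 1 else 0) a, Finset.sum_boole]
  have : (Finset.range a).filter (fun i => i < u) = Finset.range u := by
    ext i
    simp only [Finset.mem_filter, Finset.mem_range]
    omega
  rw [this]
  simp

theorem cls_card {a r i α : ℕ} (ha : 1 ≤ a) (hi : i < a) (hr : 1 ≤ r)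
    (h1 : a * (α - 1) < r) (h2 : r ≤ a * α) (hα : 1 ≤ α) :
    (cls a r i).card = (α - 1) + (if i < r - a * (α - 1) then 1 else 0) := by
  have ea : a * α = a * (α - 1) + a := by
    obtain ⟨α', rfl⟩ : ∃ α', α = α' + 1 := ⟨α - 1, by omega⟩
    simp [mul_add]
  have h3 : (cls a r i).card = r / a + (if i < r % a then 1 else 0) := by
    have h4 := Nat.count_modEq_card r ha i
    rw [Nat.mod_eq_of_lt hi] at h4
    rw [← h4, Nat.count_eq_card_filter_range, cls]
    congr 1
    ext s
    simp only [Finset.mem_filter, Finset.mem_range, Nat.ModEq, Nat.mod_eq_of_lt hi]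
  rw [h3]
  obtain ⟨u, hu⟩ : ∃ u, r = a * (α - 1) + u := ⟨r - a * (α - 1), by omega⟩
  have hu1 : u ≤ a := by omega
  have h5 : r - a * (α - 1) = u := by omega
  rw [h5]
  rcases Nat.lt_or_ge u a with h | h
  · have h6 : r / a = α - 1 := by
      rw [hu, Nat.mul_add_div ha, Nat.div_eq_of_lt h, add_zero]
    have h7 : r % a = u := by
      rw [hu, Nat.mul_add_mod, Nat.mod_eq_of_lt h]
    rw [h6, h7]
  · have h8 : u = a := le_antisymm hu1 h
    have h6 : r / a = α := by
      have : r = a * α := by omega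
      rw [this, Nat.mul_div_cancel_left _ ha]
    have h7 : r % a = 0 := by
      have : r = a * α := by omega
      rw [this, Nat.mul_mod_right]
    rw [h6, h7, h8, if_pos hi]
    simp
    omega

section sums

variable {a b d r α β : ℕ}

theorem sum_one (ha : 1 ≤ a) (hr : 1 ≤ r) (h1 : a * (α - 1) < r) (h2 : r ≤ a * α)
    (hα : 1 ≤ α) : ∑ i : Fin a, (cls a r i).card = r := by
  have ea : a * α = a * (α - 1) + a := by
    obtain ⟨α', rfl⟩ : ∃ α', α = α' + 1 := ⟨α - 1, by omega⟩
    simp [mul_add]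
  rw [Finset.sum_congr rfl fun i _ => cls_card ha i.2 hr h1 h2 hα, Finset.sum_add_distrib,
    sum_lt _ _ (by omega)]
  simp
  omega

theorem num_low (ha : 1 ≤ a) (hb : 1 ≤ b) (hr : 1 ≤ r) (h1 : a * (α - 1) < r)
    (h2 : r ≤ a * α) (hα : 1 ≤ α) (h3 : b * (β - 1) < r) (h4 : r ≤ b * β) (hβ : 1 ≤ β)
    (h : α + β ≤ d + 1) :
    ∑ i : Fin a, ∑ l : Fin b, min (d + 1) ((cls a r i).card + (cls b r l).card) =
      r * (a + b) := by
  have e : ∀ (i : Fin a) (l : Fin b), min (d + 1) ((cls a r i).card + (cls b r l).card) =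
      (cls a r i).card + (cls b r l).card := by
    intro i l
    apply min_eq_right
    rw [cls_card ha i.2 hr h1 h2 hα, cls_card hb l.2 hr h3 h4 hβ]
    split_ifs <;> omega
  rw [Finset.sum_congr rfl fun i _ => Finset.sum_congr rfl fun l _ => e i l]
  simp only [Finset.sum_add_distrib, Finset.sum_const, Finset.card_univ, Fintype.card_fin,
    smul_eq_mul]
  rw [← Finset.mul_sum, sum_one ha hr h1 h2 hα, sum_one hb hr h3 h4 hβ]
  ring

theorem num_mid (ha : 1 ≤ a) (hb : 1 ≤ b) (hr : 1 ≤ r) (h1 : a * (α - 1) < r)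
    (h2 : r ≤ a * α) (hα : 1 ≤ α) (h3 : b * (β - 1) < r) (h4 : r ≤ b * β) (hβ : 1 ≤ β)
    (h : α + β = d + 2) :
    ∑ i : Fin a, ∑ l : Fin b, min (d + 1) ((cls a r i).card + (cls b r l).card) =
      a * b * (d + 1) - (a * α - r) * (b * β - r) := by
  have ea : a * α = a * (α - 1) + a := by
    obtain ⟨α', rfl⟩ : ∃ α', α = α' + 1 := ⟨α - 1, by omega⟩
    simp [mul_add]
  have eb : b * β = b * (β - 1) + b := by
    obtain ⟨β', rfl⟩ : ∃ β', β = β' + 1 := ⟨β - 1, by omega⟩
    simp [mul_add]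
  set u := r - a * (α - 1) with hu
  set v := r - b * (β - 1) with hv
  have e : ∀ (i : Fin a) (l : Fin b), min (d + 1) ((cls a r i).card + (cls b r l).card) +
      (1 - (if (i : ℕ) < u then 1 else 0)) * (1 - (if (l : ℕ) < v then 1 else 0)) = d + 1 := by
    intro i l
    rw [cls_card ha i.2 hr h1 h2 hα, cls_card hb l.2 hr h3 h4 hβ, ← hu, ← hv]
    split_ifs <;> omega
  have hs : ∑ i : Fin a, (1 - (if (i : ℕ) < u then 1 else 0)) = a - u := by
    have h5 : ∑ i : Fin a, ((1 - (if (i : ℕ) < u then 1 else 0)) +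
        (if (i : ℕ) < u then 1 else 0)) = a := by
      have : ∀ i : Fin a, ((1 - (if (i : ℕ) < u then 1 else 0)) +
        (if (i : ℕ) < u then 1 else 0)) = 1 := by
        intro i
        split_ifs <;> rfl
      rw [Finset.sum_congr rfl fun i _ => this i]
      simp
    rw [Finset.sum_add_distrib, sum_lt a u (by omega)] at h5
    omega
  have hs' : ∑ l : Fin b, (1 - (if (l : ℕ) < v then 1 else 0)) = b - v := by
    have h5 : ∑ i : Fin b, ((1 - (if (i : ℕ) < v then 1 else 0)) +
        (if (i : ℕ) < v then 1 else 0)) = b := by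
      have : ∀ i : Fin b, ((1 - (if (i : ℕ) < v then 1 else 0)) +
        (if (i : ℕ) < v then 1 else 0)) = 1 := by
        intro i
        split_ifs <;> rfl
      rw [Finset.sum_congr rfl fun i _ => this i]
      simp
    rw [Finset.sum_add_distrib, sum_lt b v (by omega)] at h5
    omega
  have htot : (∑ i : Fin a, ∑ l : Fin b, min (d + 1) ((cls a r i).card + (cls b r l).card)) +
      (a - u) * (b - v) = a * b * (d + 1) := by
    rw [← hs, ← hs', Finset.sum_mul_sum, ← Finset.sum_add_distrib]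
    rw [Finset.sum_congr rfl fun i _ => (Finset.sum_add_distrib (s := Finset.univ)).symm]
    rw [Finset.sum_congr rfl fun i _ => Finset.sum_congr rfl fun l _ => e i l]
    simp [mul_assoc]
  have e1 : a * α - r = a - u := by omega
  have e2 : b * β - r = b - v := by omega
  rw [e1, e2]
  omega

theorem num_high (ha : 1 ≤ a) (hb : 1 ≤ b) (hr : 1 ≤ r) (h1 : a * (α - 1) < r)
    (h2 : r ≤ a * α) (hα : 1 ≤ α) (h3 : b * (β - 1) < r) (h4 : r ≤ b * β) (hβ : 1 ≤ β)
    (h : d + 3 ≤ α + β) :
    ∑ i : Fin a, ∑ l : Fin b, min (d + 1) ((cls a r i).card + (cls b r l).card) =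
      a * b * (d + 1) := by
  have e : ∀ (i : Fin a) (l : Fin b), min (d + 1) ((cls a r i).card + (cls b r l).card) =
      d + 1 := by
    intro i l
    apply min_eq_left
    rw [cls_card ha i.2 hr h1 h2 hα, cls_card hb l.2 hr h3 h4 hβ]
    split_ifs <;> omega
  rw [Finset.sum_congr rfl fun i _ => Finset.sum_congr rfl fun l _ => e i l]
  simp [mul_assoc]

end sums

end Pool.Agent.SV
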