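import Pool.Agent.Lib.MP_b54217_ag.Defs
import Pool.Agent.Lib.MP_b54217_ag.Num

/-!
# From the general definition to the coordinates of the family `(1,1,d)`
-/

set_option autoImplicit false

namespace Pool.Agent.SV

open MvPolynomial

/-- The monomial `x_i y_l s^{d-k} t^k`. -/
def ix (a b d : ℕ) (x : Fin a × Fin b × Fin (d + 1)) : Idx ![a, b, 2] ![1, 1, d] :=
  fun j => match j with
  | 0 => (⟨Pi.single x.1 1, by
      rw [Finset.Nat.mem_antidiagonalTuple]; simp⟩ :
        {m : Fin a → ℕ // m ∈ Finset.Nat.antidiagonalTuple a 1})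
  | 1 => (⟨Pi.single x.2.1 1, by
      rw [Finset.Nat.mem_antidiagonalTuple]; simp⟩ :
        {m : Fin b → ℕ // m ∈ Finset.Nat.antidiagonalTuple b 1})
  | 2 => (⟨![d - (x.2.2 : ℕ), (x.2.2 : ℕ)], by
      rw [Finset.Nat.mem_antidiagonalTuple, Fin.sum_univ_two]
      have := x.2.2.2
      simp
      omega⟩ : {m : Fin 2 → ℕ // m ∈ Finset.Nat.antidiagonalTuple 2 d})

theorem single_of_sum {n : ℕ} (m : Fin n → ℕ) (h : ∑ i, m i = 1) : ∃ i, m = Pi.single i 1 := by
  classical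
  obtain ⟨i, -, hi⟩ : ∃ i ∈ Finset.univ, m i ≠ 0 := by
    by_contra hcon
    push Not at hcon
    rw [Finset.sum_eq_zero hcon] at h
    exact absurd h (by norm_num)
  refine ⟨i, ?_⟩
  rw [← Finset.add_sum_erase _ _ (Finset.mem_univ i)] at h
  have h1 : m i = 1 := by omega
  have h2 : ∑ j ∈ Finset.univ.erase i, m j = 0 := by omega
  funext j
  by_cases hj : j = i
  · subst hj
    simp [h1]
  · rw [Pi.single_eq_of_ne hj]
    exact (Finset.sum_eq_zero_iff.1 h2) j (Finset.mem_erase.2 ⟨hj, Finset.mem_univ j⟩)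

theorem ix_bij (a b d : ℕ) : Function.Bijective (ix a b d) := by
  constructor
  · rintro ⟨i, l, k⟩ ⟨i', l', k'⟩ h
    have h0 : (Pi.single i 1 : Fin a → ℕ) = Pi.single i' 1 := congrArg Subtype.val (congrFun h 0)
    have h1 : (Pi.single l 1 : Fin b → ℕ) = Pi.single l' 1 := congrArg Subtype.val (congrFun h 1)
    have h2 : (![d - (k : ℕ), (k : ℕ)] : Fin 2 → ℕ) = ![d - (k' : ℕ), (k' : ℕ)] :=
      congrArg Subtype.val (congrFun h 2)
    have e0 : i = i' := by
      by_contra hne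
      have := congrFun h0 i
      rw [Pi.single_eq_same, Pi.single_eq_of_ne hne] at this
      exact one_ne_zero this
    have e1 : l = l' := by
      by_contra hne
      have := congrFun h1 l
      rw [Pi.single_eq_same, Pi.single_eq_of_ne hne] at this
      exact one_ne_zero this
    have e2 : k = k' := by
      have := congrFun h2 1
      exact Fin.ext (by simpa using this)
    rw [e0, e1, e2]
  · intro m
    have m0 : ∑ i : Fin a, (m 0).1 i = 1 := Finset.Nat.mem_antidiagonalTuple.1 (m 0).2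
    have m1 : ∑ i : Fin b, (m 1).1 i = 1 := Finset.Nat.mem_antidiagonalTuple.1 (m 1).2
    have m2 : (m 2).1 (0 : Fin 2) + (m 2).1 (1 : Fin 2) = d := by
      have h : ∑ i : Fin 2, (m 2).1 i = d := Finset.Nat.mem_antidiagonalTuple.1 (m 2).2
      exact (Fin.sum_univ_two _).symm.trans h
    obtain ⟨i, hi⟩ := single_of_sum _ m0
    obtain ⟨l, hl⟩ := single_of_sum _ m1
    refine ⟨(i, l, ⟨(m 2).1 (1 : Fin 2), by omega⟩), ?_⟩
    funext j
    apply Subtype.ext
    match j with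
    | 0 => exact hi.symm
    | 1 => exact hl.symm
    | 2 =>
      change (![d - (m 2).1 (1 : Fin 2), (m 2).1 (1 : Fin 2)] : Fin 2 → ℕ) = (m 2).1
      funext e
      match e with
      | 0 =>
        change d - (m 2).1 (1 : Fin 2) = (m 2).1 (0 : Fin 2)
        omega
      | 1 => rfl

/-- The product of the multinomial coefficients. -/
noncomputable def mc (a b d : ℕ) (x : Fin a × Fin b × Fin (d + 1)) : ℂ :=
  (Nat.multinomial Finset.univ (Pi.single x.1 1 : Fin a → ℕ) : ℂ) *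
    (Nat.multinomial Finset.univ (Pi.single x.2.1 1 : Fin b → ℕ) : ℂ) *
    (Nat.multinomial Finset.univ ![d - (x.2.2 : ℕ), (x.2.2 : ℕ)] : ℂ)

theorem mc_ne (a b d : ℕ) (x : Fin a × Fin b × Fin (d + 1)) : mc a b d x ≠ 0 := by
  have h : ∀ {n : ℕ} (f : Fin n → ℕ), (Nat.multinomial Finset.univ f : ℂ) ≠ 0 := by
    intro n f
    exact_mod_cast (Nat.multinomial_pos Finset.univ f).ne'
  exact mul_ne_zero (mul_ne_zero (h _) (h _)) (h _)

theorem prod_single {n : ℕ} (u : Fin n → ℂ) (i : Fin n) :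
    ∏ j, u j ^ (Pi.single i 1 : Fin n → ℕ) j = u i := by
  rw [Finset.prod_eq_single i]
  · simp
  · intro j _ hj
    simp [hj]
  · intro h
    exact absurd (Finset.mem_univ i) h

theorem prod_three (a b d : ℕ) (u : Fin a → ℂ) (v : Fin b → ℂ) (p : Fin 2 → ℂ)
    (x : Fin a × Fin b × Fin (d + 1)) :
    ((Nat.multinomial Finset.univ (Pi.single x.1 1 : Fin a → ℕ) : ℂ) *
      ∏ i, u i ^ (Pi.single x.1 1 : Fin a → ℕ) i) *
    ((Nat.multinomial Finset.univ (Pi.single x.2.1 1 : Fin b → ℕ) : ℂ) *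
      ∏ i, v i ^ (Pi.single x.2.1 1 : Fin b → ℕ) i) *
    ((Nat.multinomial Finset.univ (![d - (x.2.2 : ℕ), (x.2.2 : ℕ)] : Fin 2 → ℕ) : ℂ) *
      ∏ i, p i ^ (![d - (x.2.2 : ℕ), (x.2.2 : ℕ)] : Fin 2 → ℕ) i) =
    mc a b d x * (u x.1 * v x.2.1 * (p 0 ^ (d - (x.2.2 : ℕ)) * p 1 ^ (x.2.2 : ℕ))) := by
  rw [prod_single, prod_single, Fin.prod_univ_two, mc]
  simp only [Matrix.cons_val_zero, Matrix.cons_val_one]
  ring

theorem pt_ix (a b d : ℕ) (l : (j : Fin 3) → Fin (![a, b, 2] j) → ℂ)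
    (x : Fin a × Fin b × Fin (d + 1)) :
    pt ![a, b, 2] ![1, 1, d] l (ix a b d x) =
      mc a b d x * ((l 0 : Fin a → ℂ) x.1 * (l 1 : Fin b → ℂ) x.2.1 *
        ((l 2 : Fin 2 → ℂ) (0 : Fin 2) ^ (d - (x.2.2 : ℕ)) *
          (l 2 : Fin 2 → ℂ) (1 : Fin 2) ^ (x.2.2 : ℕ))) := by
  rw [pt, Fin.prod_univ_three]
  exact prod_three a b d (l 0) (l 1) (l 2) x

/-- The coordinates with the multinomial coefficients. -/
noncomputable def fp (a b d r : ℕ) (m : Idx ![a, b, 2] ![1, 1, d]) :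
    MvPolynomial (Par a b r) ℂ :=
  C (mc a b d ((Equiv.ofBijective _ (ix_bij a b d)).symm m)) *
    gp a b d r ((Equiv.ofBijective _ (ix_bij a b d)).symm m)

theorem eval_gp (a b d r : ℕ) (t : Par a b r → ℂ) (x : Fin a × Fin b × Fin (d + 1)) :
    eval t (gp a b d r x) = ∑ s : Fin r, t (s, Sum.inl x.1) * t (s, Sum.inr (Sum.inl x.2.1)) *
      (t (s, Sum.inr (Sum.inr 0)) ^ (d - (x.2.2 : ℕ)) *
        t (s, Sum.inr (Sum.inr 1)) ^ (x.2.2 : ℕ)) := by
  simp [gp]

theorem rankLocus_eq (a b d r : ℕ) : rankLocus ![a, b, 2] ![1, 1, d] r =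
    Set.range fun (t : Par a b r → ℂ) m => eval t (fp a b d r m) := by
  have key : ∀ (t : Par a b r → ℂ) (w : Idx ![a, b, 2] ![1, 1, d] → ℂ),
      (∀ x, w (ix a b d x) = mc a b d x * eval t (gp a b d r x)) →
      (fun m => eval t (fp a b d r m)) = w := by
    intro t w h
    funext m
    have h1 := h ((Equiv.ofBijective _ (ix_bij a b d)).symm m)
    have h2 : ix a b d ((Equiv.ofBijective _ (ix_bij a b d)).symm m) = m :=
      (Equiv.ofBijective _ (ix_bij a b d)).apply_symm_apply m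
    rw [h2] at h1
    rw [h1, fp, map_mul, eval_C]
  ext w
  constructor
  · rintro ⟨c, l, rfl⟩
    refine ⟨fun y => match y.2 with
      | Sum.inl i => c y.1 * (l y.1 0 : Fin a → ℂ) i
      | Sum.inr (Sum.inl i) => (l y.1 1 : Fin b → ℂ) i
      | Sum.inr (Sum.inr e) => (l y.1 2 : Fin 2 → ℂ) e, ?_⟩
    apply key
    intro x
    rw [eval_gp, Finset.sum_apply, Finset.mul_sum]
    refine Finset.sum_congr rfl fun s _ => ?_
    rw [Pi.smul_apply, smul_eq_mul, pt_ix]
    ring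
  · rintro ⟨t, rfl⟩
    refine ⟨fun _ => 1, fun s j => match j with
      | 0 => (fun i => t (s, Sum.inl i) : Fin a → ℂ)
      | 1 => (fun i => t (s, Sum.inr (Sum.inl i)) : Fin b → ℂ)
      | 2 => (fun e => t (s, Sum.inr (Sum.inr e)) : Fin 2 → ℂ), ?_⟩
    apply key
    intro x
    rw [eval_gp, Finset.sum_apply, Finset.mul_sum]
    refine Finset.sum_congr rfl fun s _ => ?_
    rw [Pi.smul_apply, smul_eq_mul, pt_ix]
    ring

theorem secDim_eq (a b d r : ℕ) : secDim ![a, b, 2] ![1, 1, d] r =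
    ringKrullDim (Algebra.adjoin ℂ (Set.range (gp a b d r))) := by
  rw [secDim, krull_image (fp a b d r) _ (rankLocus_eq a b d r)]
  have h : Algebra.adjoin ℂ (Set.range (fp a b d r)) =
      Algebra.adjoin ℂ (Set.range (gp a b d r)) := by
    apply le_antisymm
    · rw [Algebra.adjoin_le_iff]
      rintro _ ⟨m, rfl⟩
      rw [fp]
      exact Subalgebra.mul_mem _ (Subalgebra.algebraMap_mem _ _)
        (Algebra.subset_adjoin ⟨_, rfl⟩)
    · rw [Algebra.adjoin_le_iff]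
      rintro _ ⟨x, rfl⟩
      have h1 : gp a b d r x = C ((mc a b d x)⁻¹) * fp a b d r (ix a b d x) := by
        rw [fp]
        have h2 : (Equiv.ofBijective _ (ix_bij a b d)).symm (ix a b d x) = x :=
          (Equiv.ofBijective _ (ix_bij a b d)).symm_apply_apply x
        rw [h2, ← mul_assoc, ← C_mul, inv_mul_cancel₀ (mc_ne a b d x), C_1, one_mul]
      rw [h1]
      exact Subalgebra.mul_mem _ (Subalgebra.algebraMap_mem _ _)
        (Algebra.subset_adjoin ⟨_, rfl⟩)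
  rw [h]

theorem card_idx (a b d : ℕ) : Fintype.card (Idx ![a, b, 2] ![1, 1, d]) = a * b * (d + 1) := by
  rw [← Fintype.card_of_bijective (ix_bij a b d)]
  simp [mul_assoc]

theorem svDim_eq (a b d : ℕ) (ha : 1 ≤ a) (hb : 1 ≤ b) (hd : 1 ≤ d) :
    svDim ![a, b, 2] ![1, 1, d] + 1 = a + b := by
  rw [svDim, Fin.sum_univ_three]
  change (if (1 : ℕ) = 0 then 0 else a - 1) + (if (1 : ℕ) = 0 then 0 else b - 1) +
    (if d = 0 then 0 else 2 - 1) + 1 = a + b
  rw [if_neg one_ne_zero, if_neg one_ne_zero, if_neg (by omega : ¬ d = 0)]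
  omega

end Pool.Agent.SV
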