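import Mathlib

/-!
# Segre-Veronese varieties and their secant varieties in coordinates

`V_j = ℂ^{n_j}`.  The space `S^{d_1} V_1 ⊗ ... ⊗ S^{d_k} V_k` is the space of multihomogeneous
polynomials of multidegree `(d_1, ..., d_k)` in the variables `x_{j,i}` (`i < n_j`), with the
monomial basis, which is indexed by `Idx n d`.
-/

set_option autoImplicit false

namespace Pool.Agent.SV

open MvPolynomial

/-- The monomials of multidegree `(d_1, ..., d_k)`: for every `j` an exponent vector of length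
`n_j` and total degree `d_j`. -/
abbrev Idx {k : ℕ} (n d : Fin k → ℕ) : Type :=
  (j : Fin k) → {m : Fin (n j) → ℕ // m ∈ Finset.Nat.antidiagonalTuple (n j) (d j)}

/-- Coordinates of `l_1^{d_1} ⊗ ... ⊗ l_k^{d_k}`, i.e. the coefficients of the polynomial
`∏ j, (∑ i, l j i * x_{j,i}) ^ d_j`. -/
noncomputable def pt {k : ℕ} (n d : Fin k → ℕ) (l : (j : Fin k) → Fin (n j) → ℂ) :
    Idx n d → ℂ :=
  fun m => ∏ j, ((Nat.multinomial Finset.univ (m j).1 : ℂ) * ∏ i, l j i ^ (m j).1 i)

/-- The affine cone over the set of points of `X`-rank at most `r` (together with `0`), where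
`X = 𝒱_{d_1, ..., d_k}` is the Segre-Veronese variety. -/
def rankLocus {k : ℕ} (n d : Fin k → ℕ) (r : ℕ) : Set (Idx n d → ℂ) :=
  {w | ∃ (c : Fin r → ℂ) (l : Fin r → (j : Fin k) → Fin (n j) → ℂ),
    w = ∑ i, c i • pt n d (l i)}

/-- The dimension of the affine cone over the `r`-th secant variety `σ_r(X)`: the Krull dimension
of the coordinate ring of the Zariski closure of `rankLocus n d r`.  So
`dim σ_r(X) = secDim n d r - 1`. -/
noncomputable def secDim {k : ℕ} (n d : Fin k → ℕ) (r : ℕ) : WithBot ℕ∞ :=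
  ringKrullDim (MvPolynomial (Idx n d) ℂ ⧸ vanishingIdeal ℂ (rankLocus n d r))

/-- `dim X` for `X = 𝒱_{d_1, ..., d_k}`. -/
def svDim {k : ℕ} (n d : Fin k → ℕ) : ℕ := ∑ j, if d j = 0 then 0 else n j - 1

/-- `X` is `r`-defective: `dim σ_r(X) < min (r (dim X + 1), dim V) - 1`. -/
def Defective {k : ℕ} (n d : Fin k → ℕ) (r : ℕ) : Prop :=
  secDim n d r < ((min (r * (svDim n d + 1)) (Fintype.card (Idx n d)) : ℕ) : WithBot ℕ∞)

end Pool.Agent.SV
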