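import Mathlib

/-!
# Dimension of the closure of the image of a polynomial map
-/

set_option autoImplicit false

namespace Pool.Agent.SV

open MvPolynomial

/-- Krull dimension is invariant under finite injective homomorphisms. -/
theorem krull_finite {A B : Type*} [CommRing A] [CommRing B] (f : A →+* B)
    (hf : Function.Injective f) (hfin : f.Finite) : ringKrullDim A = ringKrullDim B := by
  letI := f.toAlgebra
  have hfin' : Module.Finite A B := hfin
  have hint : Algebra.IsIntegral A B := Algebra.IsIntegral.of_finite A B
  have hinj : Function.Injective (algebraMap A B) := hf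
  have hker : RingHom.ker (algebraMap A B) = ⊥ := (RingHom.injective_iff_ker_eq_bot _).1 hinj
  apply le_antisymm
  · refine iSup_le fun l => ?_
    obtain ⟨Q, -, hQ, hQ'⟩ := Ideal.exists_ideal_over_prime_of_isIntegral l.head.asIdeal
      (⊥ : Ideal B) (by rw [← RingHom.ker_eq_comap_bot, hker]; exact bot_le)
    have : Q.LiesOver (RelSeries.head l).asIdeal := ⟨hQ'.symm⟩
    obtain ⟨L, hL, -, -⟩ := Ideal.exists_ltSeries_of_hasGoingUp l Q
    rw [← hL]
    exact Order.LTSeries.length_le_krullDim L
  · refine Order.krullDim_le_of_strictMono (PrimeSpectrum.comap (algebraMap A B)) ?_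
    intro I J hIJ
    exact Ideal.IsIntegral.comap_lt_comap hIJ

/-- Krull dimension and transcendence degree of a finitely generated domain. -/
theorem krull_trdeg (K A : Type) [Field K] [CommRing A] [IsDomain A] [Algebra K A]
    [Algebra.FiniteType K A] : ∃ s : ℕ, ringKrullDim A = s ∧ Algebra.trdeg K A = s := by
  obtain ⟨s, g, hg, hfin⟩ := exists_finite_inj_algHom_of_fg K A
  refine ⟨s, ?_, ?_⟩
  · rw [← krull_finite g.toRingHom hg hfin, MvPolynomial.ringKrullDim_of_isNoetherianRing,
      ringKrullDim_eq_zero_of_field]
    simp
  · have h1 : AlgebraicIndependent K (fun i => g (X i)) := by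
      have : (fun i => g (X i)) = g ∘ X := rfl
      rw [this]
      exact (AlgebraicIndependent.map' (MvPolynomial.algebraicIndependent_X (Fin s) K) hg)
    have h2 : IsTranscendenceBasis K (fun i => g (X i)) := by
      rw [h1.isTranscendenceBasis_iff_isAlgebraic]
      have hr : Algebra.adjoin K (Set.range fun i => g (X i)) = g.range := by
        have : (Set.range fun i => g (X i)) = g '' (Set.range X) := by
          rw [← Set.range_comp]
          rfl
        rw [this, ← AlgHom.map_adjoin, MvPolynomial.adjoin_range_X, Algebra.map_top]
      rw [hr]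
      refine ⟨fun a => ?_⟩
      have ha := hfin.to_isIntegral a
      obtain ⟨p, hp, hp'⟩ := ha
      refine IsIntegral.isAlgebraic ⟨p.map g.rangeRestrict.toRingHom, hp.map _, ?_⟩
      rw [Polynomial.eval₂_map]
      exact hp'
    rw [← h2.cardinalMk_eq_trdeg]
    simp

end Pool.Agent.SV
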