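import Pool.Agent.Lib.MP_b54217_ag.Tran

/-!
# Secant varieties of `P^{a-1} × P^{b-1} × P^1` embedded by `O(1,1,d)`
-/

set_option autoImplicit false

namespace Pool.Agent.SV

theorem ceil_spec {a r : ℕ} (ha : 1 ≤ a) (hr : 1 ≤ r) :
    a * (r ⌈/⌉ a - 1) < r ∧ r ≤ a * (r ⌈/⌉ a) ∧ 1 ≤ r ⌈/⌉ a := by
  rw [Nat.ceilDiv_eq_add_pred_div]
  have h1 := Nat.div_add_mod (r + a - 1) a
  have h2 := Nat.mod_lt (r + a - 1) ha
  have h3 : 1 ≤ (r + a - 1) / a := by
    rw [Nat.le_div_iff_mul_le ha]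
    omega
  obtain ⟨q, hq⟩ : ∃ q, (r + a - 1) / a = q + 1 := ⟨(r + a - 1) / a - 1, by omega⟩
  rw [hq] at h1 ⊢
  rw [Nat.mul_add, Nat.mul_one] at h1
  refine ⟨?_, ?_, by omega⟩
  · rw [Nat.add_sub_cancel]
    omega
  · rw [Nat.mul_add, Nat.mul_one]
    omega

theorem dvd_iff_ceil {a r : ℕ} (ha : 1 ≤ a) (hr : 1 ≤ r) :
    a ∣ r ↔ a * (r ⌈/⌉ a) - r = 0 := by
  obtain ⟨h1, h2, h3⟩ := ceil_spec ha hr
  constructor
  · rintro ⟨q, rfl⟩
    obtain ⟨q', hq'⟩ : ∃ q', (a * q) ⌈/⌉ a = q' + 1 := ⟨(a * q) ⌈/⌉ a - 1, by omega⟩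
    rw [hq'] at h1 h2 ⊢
    rw [Nat.add_sub_cancel] at h1
    have h4 : q' < q := Nat.lt_of_mul_lt_mul_left h1
    have h5 : a * (q' + 1) ≤ a * q := Nat.mul_le_mul_left a h4
    omega
  · intro h
    exact ⟨r ⌈/⌉ a, by omega⟩

/-- The dimension of the cone over the `r`-th secant variety. -/
theorem dim_formula (a b d r : ℕ) (ha : 1 ≤ a) (hb : 1 ≤ b) (hr : 1 ≤ r) :
    secDim ![a, b, 2] ![1, 1, d] r =
      ((if r ⌈/⌉ a + r ⌈/⌉ b ≤ d + 1 then r * (a + b)
        else if r ⌈/⌉ a + r ⌈/⌉ b = d + 2 then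
          a * b * (d + 1) - (a * (r ⌈/⌉ a) - r) * (b * (r ⌈/⌉ b) - r)
        else a * b * (d + 1) : ℕ) : WithBot ℕ∞) := by
  obtain ⟨a1, a2, a3⟩ := ceil_spec ha hr
  obtain ⟨b1, b2, b3⟩ := ceil_spec hb hr
  have hlow := low a b d r
  rw [secDim_eq]
  split_ifs with h1 h2
  · rw [num_low ha hb hr a1 a2 a3 b1 b2 b3 h1] at hlow
    exact le_antisymm (upp_par a b d r hb) hlow
  · rw [num_mid ha hb hr a1 a2 a3 b1 b2 b3 h2] at hlow
    exact le_antisymm (upp_det a b d r _ _ ha hb a3 b3 h2 a2 b2 a1.le b1.le) hlow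
  · rw [num_high ha hb hr a1 a2 a3 b1 b2 b3 (by omega)] at hlow
    exact le_antisymm (upp_amb a b d r) hlow

/-- The defective cases. -/
theorem defective_iff (a b d r : ℕ) (ha : 1 ≤ a) (hb : 1 ≤ b) (hd : 1 ≤ d) (hr : 1 ≤ r) :
    Defective ![a, b, 2] ![1, 1, d] r ↔
      r ⌈/⌉ a + r ⌈/⌉ b = d + 2 ∧ ¬ a ∣ r ∧ ¬ b ∣ r := by
  obtain ⟨a1, a2, a3⟩ := ceil_spec ha hr
  obtain ⟨b1, b2, b3⟩ := ceil_spec hb hr
  rw [Defective, dim_formula a b d r ha hb hr, svDim_eq a b d ha hb hd, card_idx,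
    dvd_iff_ceil ha hr, dvd_iff_ceil hb hr]
  generalize r ⌈/⌉ a = α at *
  generalize r ⌈/⌉ b = β at *
  have hcast : ∀ m n : ℕ, ((m : ℕ) : WithBot ℕ∞) < ((n : ℕ) : WithBot ℕ∞) ↔ m < n := by
    intro m n
    exact_mod_cast Iff.rfl
  rw [hcast]
  have ea : a * α = a * (α - 1) + a := by
    obtain ⟨α', rfl⟩ : ∃ α', α = α' + 1 := ⟨α - 1, by omega⟩
    simp [mul_add]
  have eb : b * β = b * (β - 1) + b := by
    obtain ⟨β', rfl⟩ : ∃ β', β = β' + 1 := ⟨β - 1, by omega⟩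
    simp [mul_add]
  by_cases h1 : α + β ≤ d + 1
  · rw [if_pos h1]
    constructor
    · intro h
      exact absurd h (not_lt.2 (min_le_left _ _))
    · rintro ⟨h, -⟩
      omega
  · rw [if_neg h1]
    by_cases h2 : α + β = d + 2
    · rw [if_pos h2]
      obtain ⟨p, hp⟩ : ∃ p, a * α = r + p := ⟨a * α - r, by omega⟩
      obtain ⟨q, hq⟩ : ∃ q, b * β = r + q := ⟨b * β - r, by omega⟩
      obtain ⟨u, hu⟩ : ∃ u, a = u + 1 + p := ⟨a - 1 - p, by omega⟩
      obtain ⟨v, hv⟩ : ∃ v, b = v + 1 + q := ⟨b - 1 - q, by omega⟩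
      have key : r * (a + b) + p * q = a * b * (d + 1) + (u + 1) * (v + 1) := by
        have hp' : (a : ℤ) * α = r + p := by exact_mod_cast hp
        have hq' : (b : ℤ) * β = r + q := by exact_mod_cast hq
        have hu' : (a : ℤ) = u + 1 + p := by exact_mod_cast hu
        have hv' : (b : ℤ) = v + 1 + q := by exact_mod_cast hv
        have h2' : (α : ℤ) + β = d + 2 := by exact_mod_cast h2
        have : (r : ℤ) * (a + b) + p * q = a * b * (d + 1) + (u + 1) * (v + 1) := by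
          have hd' : (d : ℤ) = α + β - 2 := by linarith
          have hu2 : (u : ℤ) = a - 1 - p := by linarith
          have hv2 : (v : ℤ) = b - 1 - q := by linarith
          rw [hd', hu2, hv2]
          linear_combination (-(b : ℤ)) * hp' - (a : ℤ) * hq'
        exact_mod_cast this
      have e1 : a * α - r = p := by omega
      have e2 : b * β - r = q := by omega
      rw [e1, e2, lt_min_iff]
      have hpq : p * q ≤ a * b * (d + 1) := by
        calc p * q ≤ a * b := Nat.mul_le_mul (by omega) (by omega)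
          _ ≤ a * b * (d + 1) := Nat.le_mul_of_pos_right _ (by omega)
      have huv : 0 < (u + 1) * (v + 1) := by positivity
      have hab : 0 < a * b * (d + 1) := by positivity
      constructor
      · rintro ⟨-, h⟩
        have h5 : p * q ≠ 0 := by
          intro h6
          rw [h6] at h
          omega
        exact ⟨h2, left_ne_zero_of_mul h5, right_ne_zero_of_mul h5⟩
      · rintro ⟨-, h3, h4⟩
        have h5 : 0 < p * q := Nat.mul_pos (Nat.pos_of_ne_zero h3) (Nat.pos_of_ne_zero h4)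
        constructor <;> omega
    · rw [if_neg h2]
      constructor
      · intro h
        exact absurd h (not_lt.2 (min_le_right _ _))
      · rintro ⟨h, -⟩
        exact absurd h h2

end Pool.Agent.SV
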