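import Mathlib

/-!
# Hermite interpolation: the span of powers and derivatives of powers
-/

set_option autoImplicit false

namespace Pool.Agent.SV

open Polynomial

/-- The polynomial attached to a functional. -/
noncomputable def dpol (d : ℕ) : Module.Dual ℂ (Fin (d + 1) → ℂ) →ₗ[ℂ] ℂ[X] where
  toFun φ := ∑ k : Fin (d + 1), C (φ (Pi.single k 1)) * X ^ (k : ℕ)
  map_add' φ ψ := by
    rw [← Finset.sum_add_distrib]
    refine Finset.sum_congr rfl fun k _ => ?_
    rw [LinearMap.add_apply, C_add, add_mul]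
  map_smul' c φ := by
    rw [RingHom.id_apply, Finset.smul_sum]
    refine Finset.sum_congr rfl fun k _ => ?_
    rw [LinearMap.smul_apply, smul_eq_mul, C_mul, mul_assoc, smul_eq_C_mul]

theorem dual_apply {d : ℕ} (φ : Module.Dual ℂ (Fin (d + 1) → ℂ)) (w : Fin (d + 1) → ℂ) :
    φ w = ∑ k, φ (Pi.single k 1) * w k := by
  classical
  have h : w = ∑ k, w k • (Pi.single k (1 : ℂ) : Fin (d + 1) → ℂ) := by
    funext j
    simp [Finset.sum_apply, Pi.single_apply]
  conv_lhs => rw [h]
  rw [map_sum]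
  refine Finset.sum_congr rfl fun k _ => ?_
  rw [map_smul, smul_eq_mul, mul_comm]

theorem dpol_eval {d : ℕ} (φ : Module.Dual ℂ (Fin (d + 1) → ℂ)) (z : ℂ) :
    (dpol d φ).eval z = φ (fun k => z ^ (k : ℕ)) := by
  rw [dual_apply]
  simp [dpol, eval_finsetSum]

theorem dpol_deriv {d : ℕ} (φ : Module.Dual ℂ (Fin (d + 1) → ℂ)) (z : ℂ) :
    (derivative (dpol d φ)).eval z = φ (fun k => ((k : ℕ) : ℂ) * z ^ ((k : ℕ) - 1)) := by
  rw [dual_apply]
  simp only [dpol, LinearMap.coe_mk, AddHom.coe_mk, derivative_sum, eval_finsetSum]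
  refine Finset.sum_congr rfl fun k _ => ?_
  rw [derivative_C_mul_X_pow]
  simp
  ring

theorem dpol_degree {d : ℕ} (φ : Module.Dual ℂ (Fin (d + 1) → ℂ)) :
    (dpol d φ).degree < ((d + 1 : ℕ) : WithBot ℕ) := by
  simp only [dpol, LinearMap.coe_mk, AddHom.coe_mk]
  refine (degree_sum_le _ _).trans_lt ?_
  rw [Finset.sup_lt_iff (WithBot.bot_lt_coe _)]
  intro k _
  refine (degree_C_mul_X_pow_le _ _).trans_lt ?_
  exact_mod_cast k.2

theorem dpol_inj {d : ℕ} {φ : Module.Dual ℂ (Fin (d + 1) → ℂ)} (h : dpol d φ = 0) : φ = 0 := by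
  classical
  have h1 : ∀ k, φ (Pi.single k 1) = 0 := by
    intro k
    have h2 := congrArg (fun p => coeff p k) h
    simp only [dpol, LinearMap.coe_mk, AddHom.coe_mk, finsetSum_coeff, coeff_C_mul_X_pow,
      coeff_zero] at h2
    rw [Finset.sum_eq_single k] at h2
    · simpa using h2
    · intro j _ hj
      rw [if_neg]
      intro h3
      exact hj (Fin.ext h3.symm)
    · intro h3
      exact absurd (Finset.mem_univ k) h3
  apply LinearMap.ext
  intro w
  rw [dual_apply]
  simp [h1]

/-- A subspace of `ℂ^{d+1}` which contains the powers of the points of `E ∪ F` and the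
derivatives of the powers of the points of `E ∩ F` has dimension at least
`min (d + 1) (|E| + |F|)`. -/
theorem hermite (d : ℕ) (E F : Finset ℕ) (W : Submodule ℂ (Fin (d + 1) → ℂ))
    (h1 : ∀ s ∈ E ∪ F, (fun k : Fin (d + 1) => (s : ℂ) ^ (k : ℕ)) ∈ W)
    (h2 : ∀ s ∈ E ∩ F, (fun k : Fin (d + 1) => ((k : ℕ) : ℂ) * (s : ℂ) ^ ((k : ℕ) - 1)) ∈ W) :
    min (d + 1) (E.card + F.card) ≤ Module.finrank ℂ W := by
  classical
  let G : ℂ[X] := ∏ s ∈ E ∪ F, (X - C (s : ℂ)) ^ (if s ∈ E ∩ F then 2 else 1)
  have hG : G.Monic := monic_prod_of_monic _ _ fun s _ => (monic_X_sub_C _).pow _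
  have hGd : G.natDegree = E.card + F.card := by
    rw [natDegree_prod_of_monic _ _ fun s _ => (monic_X_sub_C _).pow _]
    simp only [natDegree_pow, natDegree_X_sub_C, mul_one]
    have : ∀ s, (if s ∈ E ∩ F then 2 else 1) = 1 + (if s ∈ E ∩ F then 1 else 0) := by
      intro s
      split_ifs <;> rfl
    rw [Finset.sum_congr rfl fun s _ => this s, Finset.sum_add_distrib, Finset.sum_ite_mem,
      Finset.sum_const, Finset.sum_const, smul_eq_mul, smul_eq_mul, mul_one, mul_one]
    have h3 : (E ∪ F) ∩ (E ∩ F) = E ∩ F := by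
      apply Finset.inter_eq_right.2
      exact Finset.inter_subset_left.trans Finset.subset_union_left
    rw [h3]
    exact Finset.card_union_add_card_inter E F
  have hdvd : ∀ φ ∈ W.dualAnnihilator, G ∣ dpol d φ := by
    intro φ hφ
    rw [Submodule.mem_dualAnnihilator] at hφ
    refine Finset.prod_dvd_of_coprime ?_ ?_
    · intro s _ s' _ hss
      apply IsCoprime.pow
      apply isCoprime_X_sub_C_of_isUnit_sub
      rw [isUnit_iff_ne_zero, sub_ne_zero]
      exact fun h => hss (by exact_mod_cast h)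
    · intro s hs
      have h3 : (dpol d φ).eval (s : ℂ) = 0 := by
        rw [dpol_eval]
        exact hφ _ (h1 s hs)
      obtain ⟨q, hq⟩ := dvd_iff_isRoot.2 h3
      split_ifs with hs2
      · have h4 : (derivative (dpol d φ)).eval (s : ℂ) = 0 := by
          rw [dpol_deriv]
          exact hφ _ (h2 s hs2)
        rw [hq, derivative_mul, eval_add, eval_mul, eval_mul] at h4
        simp at h4
        obtain ⟨q', hq'⟩ := dvd_iff_isRoot.2 h4
        rw [hq, hq']
        exact ⟨q', by ring⟩
      · rw [pow_one, hq]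
        exact dvd_mul_right _ _
  -- the annihilator consists of multiples of `G`
  let n := d + 1 - (E.card + F.card)
  have hle : W.dualAnnihilator.map (dpol d) ≤
      (degreeLT ℂ n).map (LinearMap.mulLeft ℂ G) := by
    rintro _ ⟨φ, hφ, rfl⟩
    obtain ⟨q, hq⟩ := hdvd φ hφ
    refine ⟨q, ?_, hq.symm⟩
    rw [SetLike.mem_coe, mem_degreeLT]
    by_cases hq0 : q = 0
    · rw [hq0, degree_zero]
      exact WithBot.bot_lt_coe _
    · have h4 := dpol_degree φ
      rw [hq, degree_mul, degree_eq_natDegree hG.ne_zero, degree_eq_natDegree hq0, hGd] at h4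
      rw [degree_eq_natDegree hq0]
      have h5 : E.card + F.card + q.natDegree < d + 1 := by exact_mod_cast h4
      have h6 : q.natDegree < n := by omega
      exact_mod_cast h6
  have h4 : Module.finrank ℂ (degreeLT ℂ n) = n := by
    rw [(degreeLTEquiv ℂ n).finrank_eq]
    simp
  have : Module.Finite ℂ (degreeLT ℂ n) := Module.Finite.equiv (degreeLTEquiv ℂ n).symm
  have hinj : Function.Injective (dpol d) := by
    rw [injective_iff_map_eq_zero]
    intro φ hφ
    exact dpol_inj hφ
  have h3 : Module.finrank ℂ W.dualAnnihilator ≤ n := by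
    rw [(Submodule.equivMapOfInjective (dpol d) hinj W.dualAnnihilator).finrank_eq]
    refine (Submodule.finrank_mono hle).trans ?_
    exact (Submodule.finrank_map_le (LinearMap.mulLeft ℂ G) (degreeLT ℂ n)).trans h4.le
  have h5 : Module.finrank ℂ W + Module.finrank ℂ W.dualAnnihilator =
      Module.finrank ℂ (Fin (d + 1) → ℂ) := Subspace.finrank_add_finrank_dualAnnihilator_eq W
  rw [Module.finrank_fin_fun] at h5
  omega

end Pool.Agent.SV
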