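import Pool.Agent.Lib.MP_b54217_ag.AlgC
import Pool.Agent.Lib.MP_b54217_ag.Hermite

/-!
# The family `P^{a-1} × P^{b-1} × P^1`, `O(1,1,d)`: coordinates and lower bound
-/

set_option autoImplicit false

namespace Pool.Agent.SV

open MvPolynomial

/-- Parameters: `r` triples of vectors in `ℂ^a`, `ℂ^b`, `ℂ^2`. -/
abbrev Par (a b r : ℕ) : Type := Fin r × (Fin a ⊕ Fin b ⊕ Fin 2)

/-- The coordinates of `∑ u_s ⊗ v_s ⊗ p_s^d` (without the binomial coefficients). -/
noncomputable def gp (a b d r : ℕ) (x : Fin a × Fin b × Fin (d + 1)) :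
    MvPolynomial (Par a b r) ℂ :=
  ∑ s : Fin r, X (s, Sum.inl x.1) * X (s, Sum.inr (Sum.inl x.2.1)) *
    (X (s, Sum.inr (Sum.inr 0)) ^ (d - (x.2.2 : ℕ)) * X (s, Sum.inr (Sum.inr 1)) ^ (x.2.2 : ℕ))

/-- The special point: `u_s = e_{s mod a}`, `v_s = e_{s mod b}`, `p_s = (1, s)`. -/
noncomputable def t0 (a b r : ℕ) : Par a b r → ℂ := fun x =>
  match x.2 with
  | Sum.inl i => if (x.1 : ℕ) % a = (i : ℕ) then 1 else 0
  | Sum.inr (Sum.inl l) => if (x.1 : ℕ) % b = (l : ℕ) then 1 else 0
  | Sum.inr (Sum.inr e) => if e = 0 then 1 else ((x.1 : ℕ) : ℂ)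

theorem t0_u (a b r : ℕ) (s : Fin r) (i : Fin a) :
    t0 a b r (s, Sum.inl i) = if (s : ℕ) % a = (i : ℕ) then 1 else 0 := rfl

theorem t0_v (a b r : ℕ) (s : Fin r) (l : Fin b) :
    t0 a b r (s, Sum.inr (Sum.inl l)) = if (s : ℕ) % b = (l : ℕ) then 1 else 0 := rfl

theorem t0_p0 (a b r : ℕ) (s : Fin r) : t0 a b r (s, Sum.inr (Sum.inr 0)) = 1 := rfl

theorem t0_p1 (a b r : ℕ) (s : Fin r) :
    t0 a b r (s, Sum.inr (Sum.inr 1)) = ((s : ℕ) : ℂ) := rfl

section der

variable {a b d r : ℕ}

theorem der_u (s : Fin r) (i : Fin a) (x : Fin a × Fin b × Fin (d + 1)) :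
    eval (t0 a b r) (pderiv (s, Sum.inl i) (gp a b d r x)) =
      (if i = x.1 then 1 else 0) * (if (s : ℕ) % b = (x.2.1 : ℕ) then 1 else 0) *
        ((s : ℕ) : ℂ) ^ (x.2.2 : ℕ) := by
  classical
  simp only [gp, map_sum]
  rw [Finset.sum_eq_single s]
  · simp only [Derivation.leibniz, Derivation.leibniz_pow, pderiv_X, smul_eq_mul, map_add,
      map_mul, eval_X, map_pow, t0_u, t0_v, t0_p0, t0_p1]
    simp [Pi.single_apply]
    split_ifs <;> simp_all
  · intro s' _ hs'
    simp only [Derivation.leibniz, Derivation.leibniz_pow, pderiv_X, smul_eq_mul, map_add,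
      map_mul, eval_X, map_pow]
    simp [hs']
  · intro h
    exact absurd (Finset.mem_univ s) h

theorem der_v (s : Fin r) (l : Fin b) (x : Fin a × Fin b × Fin (d + 1)) :
    eval (t0 a b r) (pderiv (s, Sum.inr (Sum.inl l)) (gp a b d r x)) =
      (if (s : ℕ) % a = (x.1 : ℕ) then 1 else 0) * (if l = x.2.1 then 1 else 0) *
        ((s : ℕ) : ℂ) ^ (x.2.2 : ℕ) := by
  classical
  simp only [gp, map_sum]
  rw [Finset.sum_eq_single s]
  · simp only [Derivation.leibniz, Derivation.leibniz_pow, pderiv_X, smul_eq_mul, map_add,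
      map_mul, eval_X, map_pow, t0_u, t0_v, t0_p0, t0_p1]
    simp [Pi.single_apply]
    split_ifs <;> simp_all
  · intro s' _ hs'
    simp only [Derivation.leibniz, Derivation.leibniz_pow, pderiv_X, smul_eq_mul, map_add,
      map_mul, eval_X, map_pow]
    simp [hs']
  · intro h
    exact absurd (Finset.mem_univ s) h

theorem der_p (s : Fin r) (x : Fin a × Fin b × Fin (d + 1)) :
    eval (t0 a b r) (pderiv (s, Sum.inr (Sum.inr 1)) (gp a b d r x)) =
      (if (s : ℕ) % a = (x.1 : ℕ) then 1 else 0) *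
        (if (s : ℕ) % b = (x.2.1 : ℕ) then 1 else 0) *
        (((x.2.2 : ℕ) : ℂ) * ((s : ℕ) : ℂ) ^ ((x.2.2 : ℕ) - 1)) := by
  classical
  simp only [gp, map_sum]
  rw [Finset.sum_eq_single s]
  · simp only [Derivation.leibniz, Derivation.leibniz_pow, pderiv_X, smul_eq_mul, map_add,
      map_mul, eval_X, map_pow, t0_u, t0_v, t0_p0, t0_p1]
    simp
    rw [t0_p1]
  · intro s' _ hs'
    simp only [Derivation.leibniz, Derivation.leibniz_pow, pderiv_X, smul_eq_mul, map_add,
      map_mul, eval_X, map_pow]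
    simp [hs']
  · intro h
    exact absurd (Finset.mem_univ s) h

end der

/-- The residue class `i` mod `a` in `{0, ..., r - 1}`. -/
def cls (a r i : ℕ) : Finset ℕ := (Finset.range r).filter fun s => s % a = i

/-- The block `(i, l)` of the tangent space at the special point. -/
noncomputable def blk (a b d r i l : ℕ) : Submodule ℂ (Fin (d + 1) → ℂ) :=
  Submodule.span ℂ ({w | ∃ s ∈ cls a r i ∪ cls b r l, w = fun k : Fin (d + 1) =>
      (s : ℂ) ^ (k : ℕ)} ∪
    {w | ∃ s ∈ cls a r i ∩ cls b r l, w = fun k : Fin (d + 1) =>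
      ((k : ℕ) : ℂ) * (s : ℂ) ^ ((k : ℕ) - 1)})

theorem blk_finrank (a b d r i l : ℕ) :
    min (d + 1) ((cls a r i).card + (cls b r l).card) ≤ Module.finrank ℂ (blk a b d r i l) :=
  hermite d _ _ _ (fun s hs => Submodule.subset_span (Or.inl ⟨s, hs, rfl⟩))
    (fun s hs => Submodule.subset_span (Or.inr ⟨s, hs, rfl⟩))

/-- The tangent space at the special point. -/
noncomputable def tan (a b d r : ℕ) : Submodule ℂ (Fin a × Fin b × Fin (d + 1) → ℂ) :=
  Submodule.span ℂ (Set.range fun (σ : Par a b r) =>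
    (fun x => eval (t0 a b r) (pderiv σ (gp a b d r x)) : Fin a × Fin b × Fin (d + 1) → ℂ))

/-- The inclusion of a block. -/
noncomputable def inc {a b d : ℕ} (i : Fin a) (l : Fin b) :
    (Fin (d + 1) → ℂ) →ₗ[ℂ] (Fin a × Fin b × Fin (d + 1) → ℂ) where
  toFun w := fun x => if i = x.1 ∧ l = x.2.1 then w x.2.2 else 0
  map_add' w w' := by
    funext x
    simp only [Pi.add_apply]
    split_ifs <;> simp
  map_smul' c w := by
    funext x
    simp only [Pi.smul_apply, RingHom.id_apply]
    split_ifs <;> simp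

theorem inc_mem {a b d r : ℕ} (i : Fin a) (l : Fin b) (w : Fin (d + 1) → ℂ)
    (hw : w ∈ blk a b d r i l) : inc i l w ∈ tan a b d r := by
  have hle : blk a b d r i l ≤ (tan a b d r).comap (inc i l) := by
    apply Submodule.span_le.2
    rintro w (⟨s, hs, rfl⟩ | ⟨s, hs, rfl⟩)
    · rw [Finset.mem_union, cls, cls, Finset.mem_filter, Finset.mem_filter,
        Finset.mem_range] at hs
      rcases hs with ⟨hr, hs⟩ | ⟨hr, hs⟩
      · refine Submodule.subset_span ⟨(⟨s, hr⟩, Sum.inr (Sum.inl l)), ?_⟩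
        funext x
        simp only [der_v]
        simp only [inc, LinearMap.coe_mk, AddHom.coe_mk]
        by_cases h1 : i = x.1
        · rw [← h1]
          by_cases h2 : l = x.2.1
          · simp [hs, h2]
          · simp [h2]
        · have h3 : ¬ s % a = (x.1 : ℕ) := fun h => h1 (Fin.ext (hs.symm.trans h))
          simp [h1, h3]
      · refine Submodule.subset_span ⟨(⟨s, hr⟩, Sum.inl i), ?_⟩
        funext x
        simp only [der_u]
        simp only [inc, LinearMap.coe_mk, AddHom.coe_mk]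
        by_cases h1 : l = x.2.1
        · rw [← h1]
          by_cases h2 : i = x.1
          · simp [hs, h2]
          · simp [h2]
        · have h3 : ¬ s % b = (x.2.1 : ℕ) := fun h => h1 (Fin.ext (hs.symm.trans h))
          simp [h1, h3]
    · rw [Finset.mem_inter, cls, cls, Finset.mem_filter, Finset.mem_filter,
        Finset.mem_range] at hs
      obtain ⟨⟨hr, hs1⟩, -, hs2⟩ := hs
      refine Submodule.subset_span ⟨(⟨s, hr⟩, Sum.inr (Sum.inr 1)), ?_⟩
      funext x
      simp only [der_p]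
      simp only [inc, LinearMap.coe_mk, AddHom.coe_mk]
      by_cases h1 : i = x.1
      · by_cases h2 : l = x.2.1
        · simp [← h1, ← h2, hs1, hs2]
        · have h3 : ¬ s % b = (x.2.1 : ℕ) := fun h => h2 (Fin.ext (hs2.symm.trans h))
          simp [h2, h3]
      · have h3 : ¬ s % a = (x.1 : ℕ) := fun h => h1 (Fin.ext (hs1.symm.trans h))
        simp [h1, h3]
  exact hle hw

theorem tan_finrank (a b d r : ℕ) :
    ∑ i : Fin a, ∑ l : Fin b, min (d + 1) ((cls a r i).card + (cls b r l).card) ≤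
      Module.finrank ℂ (tan a b d r) := by
  classical
  let Θ : ((x : Fin a × Fin b) → blk a b d r x.1 x.2) →ₗ[ℂ] tan a b d r :=
    { toFun := fun w => ⟨∑ x : Fin a × Fin b, inc x.1 x.2 (w x).1,
        Submodule.sum_mem _ fun x _ => inc_mem x.1 x.2 _ (w x).2⟩
      map_add' := by
        intro w w'
        apply Subtype.ext
        simp only [Pi.add_apply, Submodule.coe_add, map_add, Finset.sum_add_distrib]
      map_smul' := by
        intro c w
        apply Subtype.ext
        simp only [Pi.smul_apply, Submodule.coe_smul, map_smul, Finset.smul_sum,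
          RingHom.id_apply] }
  have hΘ : Function.Injective Θ := by
    rw [injective_iff_map_eq_zero]
    intro w hw
    funext y
    apply Subtype.ext
    funext k
    have h1 := congrFun (congrArg Subtype.val hw) (y.1, y.2, k)
    simp only [Θ, LinearMap.coe_mk, AddHom.coe_mk, Finset.sum_apply] at h1
    rw [Finset.sum_eq_single y] at h1
    · simpa [inc] using h1
    · intro x _ hx
      simp only [inc, LinearMap.coe_mk, AddHom.coe_mk]
      rw [if_neg]
      rintro ⟨h2, h3⟩
      exact hx (Prod.ext h2 h3)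
    · intro h
      exact absurd (Finset.mem_univ y) h
  have h1 := LinearMap.finrank_le_finrank_of_injective hΘ
  rw [Module.finrank_pi_fintype, Fintype.sum_prod_type] at h1
  refine le_trans ?_ h1
  exact Finset.sum_le_sum fun i _ => Finset.sum_le_sum fun l _ => blk_finrank a b d r i l

/-- Lower bound for the dimension. -/
theorem low (a b d r : ℕ) :
    ((∑ i : Fin a, ∑ l : Fin b, min (d + 1) ((cls a r i).card + (cls b r l).card) : ℕ) :
      WithBot ℕ∞) ≤ ringKrullDim (Algebra.adjoin ℂ (Set.range (gp a b d r))) :=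
  krull_ge _ (t0 a b r) _ (tan_finrank a b d r)

end Pool.Agent.SV
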