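import Mathlib

/-!
# Bordered minors and a block Vandermonde determinant
-/

set_option autoImplicit false

namespace Pool.Agent.SV

open Matrix

/-- The identity behind the vanishing of the bordered minors of `Mᵀ M'`. -/
theorem bordered {R : Type} [CommRing R] {n : ℕ} (A A' : Matrix (Fin n) (Fin n) R)
    (m m' : Fin n → R) :
    (m ᵥ* A') ⬝ᵥ ((Aᵀ * A').adjugate *ᵥ (Aᵀ *ᵥ m')) = (Aᵀ * A').det * (m ⬝ᵥ m') := by
  rw [Matrix.adjugate_mul_distrib, Matrix.mulVec_mulVec, Matrix.mul_assoc,
    Matrix.adjugate_mul, Matrix.dotProduct_mulVec, Matrix.vecMul_vecMul, ← Matrix.mul_assoc,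
    Matrix.mul_adjugate, Matrix.smul_mul, Matrix.one_mul, Matrix.vecMul_smul,
    Matrix.det_mul, Matrix.det_transpose]
  simp only [Matrix.vecMul_smul, Matrix.vecMul_one, smul_dotProduct, smul_eq_mul]
  ring

/-- The matrix `[s ≡ s' mod a] s ^ (s' / a)` is invertible. -/
theorem block_vander (a r : ℕ) (ha : 0 < a) :
    (Matrix.of fun s s' : Fin r => if (s : ℕ) % a = (s' : ℕ) % a then
      ((s : ℕ) : ℂ) ^ ((s' : ℕ) / a) else 0).det ≠ 0 := by
  classical
  intro h0
  obtain ⟨c, hc0, hc⟩ := Matrix.exists_mulVec_eq_zero_iff.2 h0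
  apply hc0
  -- the polynomials of the residue classes
  let p : ℕ → Polynomial ℂ := fun i => ∑ s' : Fin r,
    if (s' : ℕ) % a = i then Polynomial.C (c s') * Polynomial.X ^ ((s' : ℕ) / a) else 0
  have hroot : ∀ s : Fin r, (p ((s : ℕ) % a)).eval ((s : ℕ) : ℂ) = 0 := by
    intro s
    have h1 := congrFun hc s
    rw [Matrix.mulVec, dotProduct, Pi.zero_apply] at h1
    rw [← h1]
    simp only [p, Polynomial.eval_finsetSum]
    refine Finset.sum_congr rfl fun s' _ => ?_
    rw [Matrix.of_apply]
    by_cases h : (s : ℕ) % a = (s' : ℕ) % a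
    · rw [if_pos h.symm, if_pos h]
      simp
      ring
    · rw [if_neg h, if_neg (fun h' => h h'.symm)]
      simp
  have hcoef : ∀ i j, (p i).coeff j ≠ 0 → ∃ s' : Fin r, (s' : ℕ) % a = i ∧ (s' : ℕ) / a = j := by
    intro i j hj
    simp only [p, Polynomial.finsetSum_coeff] at hj
    obtain ⟨s', -, hs'⟩ := Finset.exists_ne_zero_of_sum_ne_zero hj
    refine ⟨s', ?_, ?_⟩
    · by_contra h
      rw [if_neg h] at hs'
      simp at hs'
    · by_contra h
      apply hs'
      split_ifs
      · rw [Polynomial.coeff_C_mul_X_pow, if_neg (fun h' => h h'.symm)]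
      · simp
  have hp : ∀ i, p i = 0 := by
    intro i
    by_contra hp0
    have h1 : (p i).coeff (p i).natDegree ≠ 0 := by
      rw [Polynomial.coeff_natDegree, Polynomial.leadingCoeff_ne_zero]
      exact hp0
    obtain ⟨s', h2, h3⟩ := hcoef i _ h1
    apply hp0
    have hlt : ∀ j : Fin ((p i).natDegree + 1), i + a * (j : ℕ) < r := by
      intro j
      have h4 := Nat.mod_add_div (s' : ℕ) a
      rw [h2, h3] at h4
      have h5 : a * (j : ℕ) ≤ a * (p i).natDegree := Nat.mul_le_mul_left a (by omega)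
      have := s'.2
      omega
    have hia : i < a := by
      rw [← h2]
      exact Nat.mod_lt _ ha
    apply Polynomial.eq_zero_of_natDegree_lt_card_of_eval_eq_zero (p i)
      (f := fun j : Fin ((p i).natDegree + 1) => (((i + a * (j : ℕ) : ℕ)) : ℂ))
    · intro j j' hjj
      have h4 : i + a * (j : ℕ) = i + a * (j' : ℕ) := by
        beta_reduce at hjj
        exact_mod_cast hjj
      have h5 : a * (j : ℕ) = a * (j' : ℕ) := by omega
      exact Fin.ext (Nat.eq_of_mul_eq_mul_left ha h5)
    · intro j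
      have h4 := hroot ⟨_, hlt j⟩
      have h5 : (i + a * (j : ℕ)) % a = i := by
        rw [Nat.add_mul_mod_self_left, Nat.mod_eq_of_lt hia]
      simp only [h5] at h4
      exact h4
    · simp
  funext s'
  have h1 := congrArg (fun q => Polynomial.coeff q ((s' : ℕ) / a)) (hp ((s' : ℕ) % a))
  simp only [p, Polynomial.finsetSum_coeff, Polynomial.coeff_zero] at h1
  rw [Finset.sum_eq_single s'] at h1
  · rw [if_pos rfl, Polynomial.coeff_C_mul_X_pow, if_pos rfl] at h1
    exact h1
  · intro s _ hs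
    split_ifs with h
    · rw [Polynomial.coeff_C_mul_X_pow, if_neg]
      intro h2
      apply hs
      apply Fin.ext
      rw [← Nat.mod_add_div (s : ℕ) a, ← Nat.mod_add_div (s' : ℕ) a, h, h2]
    · simp
  · intro h
    exact absurd (Finset.mem_univ s') h

end Pool.Agent.SV
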