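import Mathlib

/-!
# The easy half of the Jacobian criterion
-/

set_option autoImplicit false

namespace Pool.Agent.SV

open MvPolynomial

/-- Chain rule. -/
theorem pderiv_aeval {K κ σ : Type} [Field K] [Fintype κ] (f : κ → MvPolynomial σ K)
    (P : MvPolynomial κ K) (s : σ) :
    pderiv s (aeval f P) = ∑ j, aeval f (pderiv j P) * pderiv s (f j) := by
  classical
  induction P using MvPolynomial.induction_on with
  | C c => simp
  | add p q hp hq =>
    rw [map_add, map_add, hp, hq, ← Finset.sum_add_distrib]
    refine Finset.sum_congr rfl fun j _ => ?_
    rw [map_add, map_add, add_mul]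
  | mul_X p i hp =>
    rw [map_mul, aeval_X, Derivation.leibniz, hp]
    have h1 : ∀ j, aeval f (pderiv j (p * X i)) * pderiv s (f j) =
        f i * (aeval f (pderiv j p) * pderiv s (f j)) +
        (if j = i then aeval f p * pderiv s (f i) else 0) := by
      intro j
      rw [Derivation.leibniz, pderiv_X, map_add, smul_eq_mul, smul_eq_mul, map_mul, map_mul,
        aeval_X]
      by_cases h : j = i
      · subst h
        simp
        ring
      · rw [if_neg h, Pi.single_eq_of_ne (fun h' => h h'.symm)]
        simp
        ring
    rw [Finset.sum_congr rfl fun j _ => h1 j, Finset.sum_add_distrib, ← Finset.mul_sum]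
    simp
    ring

/-- Polynomials whose gradients are linearly independent at a point are algebraically
independent. -/
theorem jac_lower {K κ σ : Type} [Field K] [CharZero K] [Fintype κ] [Fintype σ]
    (f : κ → MvPolynomial σ K) (t : σ → K)
    (h : LinearIndependent K (fun j => (fun s => eval t (pderiv s (f j)) : σ → K))) :
    AlgebraicIndependent K f := by
  classical
  obtain ⟨g, hg⟩ := (Fintype.linearCombination K
      (fun j => (fun s => eval t (pderiv s (f j)) : σ → K))).exists_leftInverse_of_injective
      (LinearMap.ker_eq_bot.2 h.fintypeLinearCombination_injective)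
  -- the relation module is zero
  have key : ∀ c : κ → MvPolynomial σ K, (∀ s, ∑ j, c j * pderiv s (f j) = 0) → c = 0 := by
    intro c hc
    let B : Matrix κ σ (MvPolynomial σ K) := fun j s => pderiv s (f j)
    let N : Matrix σ κ (MvPolynomial σ K) := fun s j => C (g (Pi.single s 1) j)
    have hB : Matrix.vecMul c B = 0 := by
      funext s
      exact hc s
    have hdet : (B * N).det ≠ 0 := by
      intro h0
      have h1 : (eval t) (B * N).det = 0 := by rw [h0, map_zero]
      rw [RingHom.map_det] at h1
      have h2 : (RingHom.mapMatrix (eval t)) (B * N) = 1 := by
        ext j j'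
        rw [RingHom.mapMatrix_apply, Matrix.map_apply, Matrix.mul_apply, map_sum]
        have h3 := congrArg (fun φ => φ (Pi.single j 1) j') hg
        simp only [LinearMap.comp_apply, LinearMap.id_apply] at h3
        have h4 : Fintype.linearCombination K
            (fun j => (fun s => eval t (pderiv s (f j)) : σ → K)) (Pi.single j 1) =
            fun s => eval t (pderiv s (f j)) := by
          rw [Fintype.linearCombination_apply]
          simp [Pi.single_apply]
        rw [h4] at h3
        rw [Matrix.one_apply]
        rw [Pi.single_apply] at h3
        have h5 : g (fun s => eval t (pderiv s (f j))) j' =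
            ∑ s, eval t (pderiv s (f j)) * g (Pi.single s 1) j' := by
          have h6 : (fun s => eval t (pderiv s (f j)) : σ → K) =
              ∑ s, eval t (pderiv s (f j)) • Pi.single s (1 : K) := by
            funext s
            simp [Finset.sum_apply, Pi.single_apply]
          conv_lhs => rw [h6]
          rw [map_sum, Finset.sum_apply]
          refine Finset.sum_congr rfl fun s _ => ?_
          rw [map_smul]
          rfl
        rw [h5] at h3
        have h7 : ∀ s, (eval t) (B j s * N s j') =
            eval t (pderiv s (f j)) * g (Pi.single s 1) j' := by
          intro s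
          rw [map_mul]
          simp [B, N]
        rw [Finset.sum_congr rfl fun s _ => h7 s, h3]
        by_cases hjj : j = j'
        · simp [hjj]
        · rw [if_neg hjj, if_neg (fun h => hjj h.symm)]
      rw [h2, Matrix.det_one] at h1
      exact one_ne_zero h1
    have h8 : Matrix.vecMul c (B * N) = 0 := by
      rw [← Matrix.vecMul_vecMul, hB, Matrix.zero_vecMul]
    exact Matrix.eq_zero_of_vecMul_eq_zero hdet h8
  -- minimal degree
  have main : ∀ n : ℕ, ∀ P : MvPolynomial κ K, P.totalDegree ≤ n → aeval f P = 0 → P = 0 := by
    intro n
    induction n with
    | zero =>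
      intro P hP h0
      have h1 : P = C (P.coeff 0) := by
        exact totalDegree_eq_zero_iff_eq_C.1 (Nat.le_zero.1 hP)
      rw [h1, aeval_C] at h0
      rw [h1]
      have h2 : P.coeff 0 = 0 := by
        have : (C (P.coeff 0) : MvPolynomial σ K) = 0 := h0
        rwa [C_eq_zero] at this
      rw [h2, C_0]
    | succ n ih =>
      intro P hP h0
      have h1 : (fun j => aeval f (pderiv j P)) = 0 := by
        apply key
        intro s
        rw [← pderiv_aeval, h0, map_zero]
      have h2 : ∀ j, pderiv j P = 0 := by
        intro j
        apply ih _ _ (congrFun h1 j)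
        refine Finset.sup_le fun m hm => ?_
        have h5 : coeff (m + Finsupp.single j 1) P ≠ 0 := by
          intro h6
          rw [mem_support_iff, coeff_pderiv, h6, zero_mul] at hm
          exact hm rfl
        have h7 := le_totalDegree (mem_support_iff.2 h5)
        rw [Finsupp.sum_add_index' (fun _ => rfl) (fun _ _ _ => rfl),
          Finsupp.sum_single_index rfl] at h7
        omega
      have h3 : P = C (P.coeff 0) := by
        ext m
        rw [coeff_C]
        by_cases hm : m = 0
        · subst hm
          simp
        · rw [if_neg (fun h => hm h.symm)]
          obtain ⟨i, hi⟩ : ∃ i, m i ≠ 0 := by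
            by_contra hcon
            push Not at hcon
            exact hm (Finsupp.ext hcon)
          have h4 := congrArg (coeff (m - Finsupp.single i 1)) (h2 i)
          have h5 : m - Finsupp.single i 1 + Finsupp.single i 1 = m := by
            apply tsub_add_cancel_of_le
            rw [Finsupp.single_le_iff]
            omega
          rw [coeff_zero, coeff_pderiv, h5] at h4
          rcases mul_eq_zero.1 h4 with h6 | h6
          · exact h6
          · exfalso
            have h7 : (((m - Finsupp.single i 1 : κ →₀ ℕ) i + 1 : ℕ) : K) = 0 := by
              exact_mod_cast h6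
            rw [Nat.cast_eq_zero] at h7
            omega
      rw [h3, aeval_C] at h0
      rw [h3]
      have h4 : P.coeff 0 = 0 := by
        have : (C (P.coeff 0) : MvPolynomial σ K) = 0 := h0
        rwa [C_eq_zero] at this
      rw [h4, C_0]
  rw [algebraicIndependent_iff]
  intro P hP
  exact main _ P le_rfl hP

end Pool.Agent.SV
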