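import Pool.Agent.Lib.MP_b54217_ag.Conc
import Pool.Agent.Lib.MP_b54217_ag.Cram

/-!
# The family `P^{a-1} × P^{b-1} × P^1`, `O(1,1,d)`: upper bounds
-/

set_option autoImplicit false

namespace Pool.Agent.SV

open MvPolynomial

/-- The dimension is at most the number of coordinates. -/
theorem upp_amb (a b d r : ℕ) :
    ringKrullDim (Algebra.adjoin ℂ (Set.range (gp a b d r))) ≤ ((a * b * (d + 1) : ℕ) :
      WithBot ℕ∞) := by
  have h := krull_le (gp a b d r) (Algebra.ofId (MvPolynomial (Par a b r) ℂ)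
    (FractionRing (MvPolynomial (Par a b r) ℂ)) |>.restrictScalars ℂ)
    (IsFractionRing.injective _ _)
    (fun x => algebraMap (MvPolynomial (Par a b r) ℂ)
      (FractionRing (MvPolynomial (Par a b r) ℂ)) (gp a b d r x))
    (fun x => IntermediateField.subset_adjoin ℂ _ ⟨x, rfl⟩)
  refine h.trans (le_of_eq ?_)
  congr 2
  simp [mul_assoc]

/-- The dimension is at most the number of parameters. -/
theorem upp_par (a b d r : ℕ) (hb : 1 ≤ b) :
    ringKrullDim (Algebra.adjoin ℂ (Set.range (gp a b d r))) ≤ ((r * (a + b) : ℕ) :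
      WithBot ℕ∞) := by
  classical
  obtain ⟨b, rfl⟩ : ∃ b', b = b' + 1 := ⟨b - 1, by omega⟩
  let L := FractionRing (MvPolynomial (Par a (b + 1) r) ℂ)
  let ι : MvPolynomial (Par a (b + 1) r) ℂ →+* L := algebraMap _ _
  have hι : Function.Injective ι := IsFractionRing.injective _ _
  let U : Fin r → Fin a → L := fun s i => ι (X (s, Sum.inl i))
  let V : Fin r → Fin (b + 1) → L := fun s l => ι (X (s, Sum.inr (Sum.inl l)))
  let P : Fin r → Fin 2 → L := fun s e => ι (X (s, Sum.inr (Sum.inr e)))
  have hX : ∀ σ : Par a (b + 1) r, ι (X σ) ≠ 0 := by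
    intro σ h
    rw [← map_zero ι] at h
    exact X_ne_zero σ (hι h)
  have hV : ∀ s l, V s l ≠ 0 := fun s l => hX _
  have hP : ∀ s e, P s e ≠ 0 := fun s e => hX _
  let g : Fin r × (Fin a ⊕ Fin (b + 1)) → L := fun y =>
    match y.2 with
    | Sum.inl i => U y.1 i * V y.1 (Fin.last b) * P y.1 0 ^ d
    | Sum.inr l => if l = Fin.last b then P y.1 1 / P y.1 0 else V y.1 l / V y.1 (Fin.last b)
  have h := krull_le (gp a (b + 1) d r) (Algebra.ofId (MvPolynomial (Par a (b + 1) r) ℂ) L
    |>.restrictScalars ℂ) hι g ?_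
  · refine h.trans (le_of_eq ?_)
    congr 2
    simp
  · intro x
    have hg : ∀ y, g y ∈ IntermediateField.adjoin ℂ (Set.range g) := fun y =>
      IntermediateField.subset_adjoin ℂ _ ⟨y, rfl⟩
    have hx : ι (gp a (b + 1) d r x) = ∑ s : Fin r,
        (U s x.1 * V s (Fin.last b) * P s 0 ^ d) *
          (V s x.2.1 / V s (Fin.last b)) * (P s 1 / P s 0) ^ (x.2.2 : ℕ) := by
      rw [gp, map_sum]
      refine Finset.sum_congr rfl fun s _ => ?_
      have hpow : P s 0 ^ d = P s 0 ^ (d - (x.2.2 : ℕ)) * P s 0 ^ (x.2.2 : ℕ) := by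
        rw [← pow_add, Nat.sub_add_cancel]
        have := x.2.2.2
        omega
      rw [map_mul, map_mul, map_mul, map_pow, map_pow]
      change U s x.1 * V s x.2.1 * (P s 0 ^ (d - (x.2.2 : ℕ)) * P s 1 ^ (x.2.2 : ℕ)) = _
      have h1 := hV s (Fin.last b)
      have h2 := hP s 0
      have e1 : V s (Fin.last b) * (V s x.2.1 / V s (Fin.last b)) = V s x.2.1 :=
        mul_div_cancel₀ _ h1
      have e2 : P s 0 ^ (x.2.2 : ℕ) * (P s 1 / P s 0) ^ (x.2.2 : ℕ) = P s 1 ^ (x.2.2 : ℕ) := by
        rw [← mul_pow, mul_div_cancel₀ _ h2]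
      calc U s x.1 * V s x.2.1 * (P s 0 ^ (d - (x.2.2 : ℕ)) * P s 1 ^ (x.2.2 : ℕ))
          = U s x.1 * (V s (Fin.last b) * (V s x.2.1 / V s (Fin.last b))) *
            (P s 0 ^ (d - (x.2.2 : ℕ)) *
              (P s 0 ^ (x.2.2 : ℕ) * (P s 1 / P s 0) ^ (x.2.2 : ℕ))) := by rw [e1, e2]
        _ = _ := by
          rw [hpow]
          ring
    change ι (gp a (b + 1) d r x) ∈ _
    rw [hx]
    refine sum_mem fun s _ => mul_mem (mul_mem ?_ ?_) (pow_mem ?_ _)
    · exact hg (s, Sum.inl x.1)
    · by_cases hl : x.2.1 = Fin.last b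
      · rw [hl, div_self (hV s _)]
        exact one_mem _
      · have h4 := hg (s, Sum.inr x.2.1)
        simp only [g, if_neg hl] at h4
        exact h4
    · have h4 := hg (s, Sum.inr (Fin.last b))
      simp only [g, if_true] at h4
      exact h4

/-- The determinantal upper bound: if `α + β = d + 2`, `r ≤ a α`, `r ≤ b β`, then the coordinates
`(i, l, d)` with `a (α - 1) + i ≥ r`, `b (β - 1) + l ≥ r` are rational functions of the others. -/
theorem upp_det (a b d r α β : ℕ) (ha : 1 ≤ a) (hb : 1 ≤ b) (hα : 1 ≤ α) (hβ : 1 ≤ β)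
    (hd : α + β = d + 2) (hra : r ≤ a * α) (hrb : r ≤ b * β) (hra' : a * (α - 1) ≤ r)
    (hrb' : b * (β - 1) ≤ r) :
    ringKrullDim (Algebra.adjoin ℂ (Set.range (gp a b d r))) ≤
      ((a * b * (d + 1) - (a * α - r) * (b * β - r) : ℕ) : WithBot ℕ∞) := by
  classical
  let R := MvPolynomial (Par a b r) ℂ
  let L := FractionRing R
  let ι : R →+* L := algebraMap R L
  have hι : Function.Injective ι := IsFractionRing.injective R L
  -- the determined coordinates
  let Om : Fin a × Fin b × Fin (d + 1) → Prop := fun x =>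
    r ≤ a * (α - 1) + (x.1 : ℕ) ∧ r ≤ b * (β - 1) + (x.2.1 : ℕ) ∧ (x.2.2 : ℕ) = d
  -- matrices
  have hmod : ∀ s : Fin r, (s : ℕ) % a < a := fun s => Nat.mod_lt _ ha
  have hmod' : ∀ s : Fin r, (s : ℕ) % b < b := fun s => Nat.mod_lt _ hb
  have hdiv : ∀ s : Fin r, (s : ℕ) / a < α := fun s => by
    rw [Nat.div_lt_iff_lt_mul ha]
    have := s.2
    rw [mul_comm]
    omega
  have hdiv' : ∀ s : Fin r, (s : ℕ) / b < β := fun s => by
    rw [Nat.div_lt_iff_lt_mul hb]
    have := s.2
    rw [mul_comm]
    omega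
  let m : Fin a → ℕ → Fin r → R := fun i j s =>
    X (s, Sum.inl i) * (X (s, Sum.inr (Sum.inr 0)) ^ (α - 1 - j) *
      X (s, Sum.inr (Sum.inr 1)) ^ j)
  let m' : Fin b → ℕ → Fin r → R := fun l j s =>
    X (s, Sum.inr (Sum.inl l)) * (X (s, Sum.inr (Sum.inr 0)) ^ (β - 1 - j) *
      X (s, Sum.inr (Sum.inr 1)) ^ j)
  have hmm : ∀ i l j j', j < α → j' < β → ∀ hk : j + j' < d + 1,
      m i j ⬝ᵥ m' l j' = gp a b d r (i, l, ⟨j + j', hk⟩) := by
    intro i l j j' hj hj' hk
    rw [gp, dotProduct]
    refine Finset.sum_congr rfl fun s _ => ?_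
    simp only [m, m']
    have h1 : d - (j + j') = (α - 1 - j) + (β - 1 - j') := by omega
    rw [h1, pow_add, pow_add]
    ring
  let A : Matrix (Fin r) (Fin r) R := Matrix.of fun s s' => m ⟨(s' : ℕ) % a, hmod s'⟩ ((s' : ℕ) / a) s
  let A' : Matrix (Fin r) (Fin r) R :=
    Matrix.of fun s s' => m' ⟨(s' : ℕ) % b, hmod' s'⟩ ((s' : ℕ) / b) s
  have hdetA : A.det ≠ 0 := by
    intro h
    have h1 : (eval (t0 a b r)) A.det = 0 := by rw [h, map_zero]
    rw [RingHom.map_det] at h1
    apply block_vander a r ha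
    refine Eq.trans ?_ h1
    congr 1
    ext s s'
    simp only [A, m, RingHom.mapMatrix_apply, Matrix.map_apply, Matrix.of_apply, map_mul,
      map_pow, eval_X, t0_u, t0_p0, t0_p1, one_pow, one_mul]
    split_ifs <;> simp
  have hdetA' : A'.det ≠ 0 := by
    intro h
    have h1 : (eval (t0 a b r)) A'.det = 0 := by rw [h, map_zero]
    rw [RingHom.map_det] at h1
    apply block_vander b r hb
    refine Eq.trans ?_ h1
    congr 1
    ext s s'
    simp only [A', m', RingHom.mapMatrix_apply, Matrix.map_apply, Matrix.of_apply, map_mul,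
      map_pow, eval_X, t0_v, t0_p0, t0_p1, one_pow, one_mul]
    split_ifs <;> simp
  let C0 : Matrix (Fin r) (Fin r) R := A.transpose * A'
  have hC0 : C0.det ≠ 0 := by
    rw [Matrix.det_mul, Matrix.det_transpose]
    exact mul_ne_zero hdetA hdetA'
  let g : {x // ¬ Om x} → L := fun x => ι (gp a b d r x.1)
  let E := IntermediateField.adjoin ℂ (Set.range g)
  have hE : ∀ x, ¬ Om x → ι (gp a b d r x) ∈ E := fun x hx =>
    IntermediateField.subset_adjoin ℂ _ ⟨⟨x, hx⟩, rfl⟩
  have hcard : Fintype.card {x // ¬ Om x} ≤ a * b * (d + 1) - (a * α - r) * (b * β - r) := by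
    rw [Fintype.card_subtype_compl]
    have h1 : Fintype.card (Fin a × Fin b × Fin (d + 1)) = a * b * (d + 1) := by
      simp [mul_assoc]
    rw [h1]
    apply Nat.sub_le_sub_left
    have ea : a * α = a * (α - 1) + a := by
      obtain ⟨α', rfl⟩ : ∃ α', α = α' + 1 := ⟨α - 1, by omega⟩
      simp [mul_add]
    have eb : b * β = b * (β - 1) + b := by
      obtain ⟨β', rfl⟩ : ∃ β', β = β' + 1 := ⟨β - 1, by omega⟩
      simp [mul_add]
    let F : Fin (a * α - r) × Fin (b * β - r) → {x // Om x} := fun y =>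
      ⟨(⟨(r - a * (α - 1)) + (y.1 : ℕ), by have := y.1.2; omega⟩,
        ⟨(r - b * (β - 1)) + (y.2 : ℕ), by have := y.2.2; omega⟩, Fin.last d),
        ⟨by simp only; omega, by simp only; omega, rfl⟩⟩
    have hF : Function.Injective F := by
      rintro ⟨y1, y2⟩ ⟨z1, z2⟩ hyz
      have h2 := congrArg Subtype.val hyz
      simp only [F, Prod.mk.injEq, Fin.mk.injEq] at h2
      obtain ⟨h3, h4, -⟩ := h2
      apply Prod.ext
      · apply Fin.ext
        simp only
        omega
      · apply Fin.ext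
        simp only
        omega
    have h2 := Fintype.card_le_of_injective F hF
    simpa using h2
  have h := krull_le (gp a b d r) (Algebra.ofId R L |>.restrictScalars ℂ) hι g ?_
  · refine h.trans ?_
    exact_mod_cast hcard
  · intro x
    change ι (gp a b d r x) ∈ E
    by_cases hx : Om x
    · obtain ⟨hx1, hx2, hx3⟩ := hx
      -- the entries of the bordered matrix
      have e0 : ∀ s s', ι (C0 s s') ∈ E := by
        intro s s'
        have hk : (s : ℕ) / a + (s' : ℕ) / b < d + 1 := by
          have := hdiv s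
          have := hdiv' s'
          omega
        have h1 : C0 s s' = gp a b d r (⟨(s : ℕ) % a, hmod s⟩, ⟨(s' : ℕ) % b, hmod' s'⟩,
            ⟨(s : ℕ) / a + (s' : ℕ) / b, hk⟩) := by
          rw [← hmm _ _ _ _ (hdiv s) (hdiv' s') hk]
          rfl
        rw [h1]
        apply hE
        rintro ⟨h2, -, h3⟩
        simp only at h2 h3
        have h4 := hdiv s
        have h5 := hdiv' s'
        have h6 : (s : ℕ) / a = α - 1 := by omega
        have h7 := Nat.mod_add_div (s : ℕ) a
        rw [h6] at h7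
        have := s.2
        omega
      have e1 : ∀ s', ι ((Matrix.vecMul (m x.1 (α - 1)) A') s') ∈ E := by
        intro s'
        have hk : α - 1 + (s' : ℕ) / b < d + 1 := by
          have := hdiv' s'
          omega
        have h1 : (Matrix.vecMul (m x.1 (α - 1)) A') s' = gp a b d r (x.1,
            ⟨(s' : ℕ) % b, hmod' s'⟩, ⟨α - 1 + (s' : ℕ) / b, hk⟩) := by
          rw [← hmm _ _ _ _ (by omega) (hdiv' s') hk]
          rfl
        rw [h1]
        apply hE
        rintro ⟨-, h2, h3⟩
        simp only at h2 h3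
        have h5 := hdiv' s'
        have h6 : (s' : ℕ) / b = β - 1 := by omega
        have h7 := Nat.mod_add_div (s' : ℕ) b
        rw [h6] at h7
        have := s'.2
        omega
      have e2 : ∀ s, ι ((Matrix.mulVec A.transpose (m' x.2.1 (β - 1))) s) ∈ E := by
        intro s
        have hk : (s : ℕ) / a + (β - 1) < d + 1 := by
          have := hdiv s
          omega
        have h1 : (Matrix.mulVec A.transpose (m' x.2.1 (β - 1))) s = gp a b d r
            (⟨(s : ℕ) % a, hmod s⟩, x.2.1, ⟨(s : ℕ) / a + (β - 1), hk⟩) := by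
          rw [← hmm _ _ _ _ (hdiv s) (by omega) hk]
          rfl
        rw [h1]
        apply hE
        rintro ⟨h2, -, h3⟩
        simp only at h2 h3
        have h5 := hdiv s
        have h6 : (s : ℕ) / a = α - 1 := by omega
        have h7 := Nat.mod_add_div (s : ℕ) a
        rw [h6] at h7
        have := s.2
        omega
      -- the adjugate
      have e3 : ∀ s s', ι (C0.adjugate s s') ∈ E := by
        intro s s'
        let CE : Matrix (Fin r) (Fin r) E := Matrix.of fun s s' => ⟨ι (C0 s s'), e0 s s'⟩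
        have h1 : ι.mapMatrix C0 = (algebraMap E L).mapMatrix CE := by
          ext s s'
          rfl
        have h2 : ι.mapMatrix C0.adjugate = (algebraMap E L).mapMatrix CE.adjugate := by
          rw [RingHom.map_adjugate, RingHom.map_adjugate, h1]
        have h3 := congrFun (congrFun h2 s) s'
        change ι (C0.adjugate s s') = algebraMap E L (CE.adjugate s s') at h3
        rw [h3]
        exact (CE.adjugate s s').2
      have e4 : ι C0.det ∈ E := by
        let CE : Matrix (Fin r) (Fin r) E := Matrix.of fun s s' => ⟨ι (C0 s s'), e0 s s'⟩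
        have h1 : ι.mapMatrix C0 = (algebraMap E L).mapMatrix CE := by
          ext s s'
          rfl
        rw [RingHom.map_det, h1, ← RingHom.map_det]
        exact (CE.det).2
      have h1 := bordered A A' (m x.1 (α - 1)) (m' x.2.1 (β - 1))
      have hk : α - 1 + (β - 1) < d + 1 := by omega
      rw [hmm x.1 x.2.1 (α - 1) (β - 1) (by omega) (by omega) hk] at h1
      have hx' : (x.1, x.2.1, (⟨α - 1 + (β - 1), hk⟩ : Fin (d + 1))) = x := by
        have : (⟨α - 1 + (β - 1), hk⟩ : Fin (d + 1)) = x.2.2 := by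
          apply Fin.ext
          simp only
          omega
        rw [this]
      rw [hx'] at h1
      have h2 : ι (gp a b d r x) = (ι C0.det)⁻¹ * ι ((Matrix.vecMul (m x.1 (α - 1)) A') ⬝ᵥ
          (Matrix.mulVec C0.adjugate (Matrix.mulVec A.transpose (m' x.2.1 (β - 1))))) := by
        have h3 : ι C0.det ≠ 0 := by
          intro h
          rw [← map_zero ι] at h
          exact hC0 (hι h)
        change _ = (ι C0.det)⁻¹ * ι ((Matrix.vecMul (m x.1 (α - 1)) A') ⬝ᵥ
          (Matrix.mulVec (A.transpose * A').adjugate (Matrix.mulVec A.transpose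
            (m' x.2.1 (β - 1)))))
        rw [h1, map_mul]
        change _ = (ι C0.det)⁻¹ * (ι C0.det * _)
        rw [inv_mul_cancel_left₀ h3]
      rw [h2]
      refine mul_mem (inv_mem e4) ?_
      rw [dotProduct, map_sum]
      refine sum_mem fun s _ => ?_
      rw [map_mul]
      refine mul_mem (e1 s) ?_
      rw [Matrix.mulVec, dotProduct, map_sum]
      refine sum_mem fun s' _ => ?_
      rw [map_mul]
      exact mul_mem (e3 s s') (e2 s')
    · exact hE x hx

end Pool.Agent.SV
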